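import Mathlib

set_option autoImplicit false

namespace Pool.Agent.H32.LC

/-! Numerical sequences -/

noncomputable def zeta (n : ℕ) : ℝ := (1 / 8) * (1 / 2) ^ n

def th (x : ℝ) : ℝ := 2 * x - x ^ 2

noncomputable def zz (n : ℕ) : ℝ := (3 / 4) * zeta n
noncomputable def vv (n : ℕ) : ℝ := th (zeta n)
noncomputable def tt (n : ℕ) : ℝ := th (zz n)
noncomputable def gg (n : ℕ) : ℝ := zz n / 5
noncomputable def tau (n : ℕ) : ℝ := vv n / 8
noncomputable def sig (n : ℕ) : ℝ := gg n - gg n ^ 2 / 2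
noncomputable def tp (n : ℕ) : ℝ := 1 / 2 + tau n

theorem zeta_pos (n : ℕ) : 0 < zeta n := by unfold zeta; positivity

theorem zeta_le (n : ℕ) : zeta n ≤ 1 / 8 := by
  unfold zeta
  have : ((1 : ℝ) / 2) ^ n ≤ 1 := pow_le_one₀ (by norm_num) (by norm_num)
  linarith

theorem zeta_succ (n : ℕ) : zeta n = 2 * zeta (n + 1) := by
  unfold zeta; rw [pow_succ]; ring

theorem zeta_anti {j k : ℕ} (h : j ≤ k) : zeta k ≤ zeta j := by
  unfold zeta
  have := pow_le_pow_of_le_one (a := (1 : ℝ) / 2) (by norm_num) (by norm_num) h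
  linarith

theorem zeta_gap {k n : ℕ} (h : zeta k < 2 * zeta n) : zeta k ≤ zeta n := by
  by_contra hc
  have hkn : k < n := by
    by_contra h2
    exact hc (zeta_anti (not_lt.mp h2))
  have h1 : zeta (k + 1) ≥ zeta n := zeta_anti hkn
  have h2 := zeta_succ k
  linarith

theorem exists_zeta_lt {e : ℝ} (he : 0 < e) : ∃ n, zeta n < e := by
  obtain ⟨n, hn⟩ := exists_pow_lt_of_lt_one he (show (1 / 2 : ℝ) < 1 by norm_num)
  refine ⟨n, ?_⟩
  have := zeta_pos n
  unfold zeta at this ⊢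
  linarith

theorem zz_pos (n : ℕ) : 0 < zz n := by
  have := zeta_pos n; unfold zz; linarith

theorem zz_le (n : ℕ) : zz n ≤ 3 / 32 := by
  have := zeta_le n; unfold zz; linarith

theorem zz_anti {j k : ℕ} (h : j ≤ k) : zz k ≤ zz j := by
  have := zeta_anti h; unfold zz; linarith

theorem th_mono {x y : ℝ} (h : x ≤ y) (hy : y ≤ 1) : th x ≤ th y := by
  unfold th; nlinarith

theorem vv_pos (n : ℕ) : 0 < vv n := by
  have := zeta_pos n
  have := zeta_le n
  unfold vv th; nlinarith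

theorem vv_le (n : ℕ) : vv n ≤ 15 / 64 := by
  have h := zeta_le n
  have := th_mono h (by norm_num)
  unfold vv
  unfold th at *
  linarith

theorem vv_anti {j k : ℕ} (h : j ≤ k) : vv k ≤ vv j :=
  th_mono (zeta_anti h) (by have := zeta_le j; linarith)

theorem tt_pos (n : ℕ) : 0 < tt n := by
  have := zz_pos n
  have := zz_le n
  unfold tt th; nlinarith

theorem tt_le (n : ℕ) : tt n ≤ 3 / 16 := by
  have := zz_pos n
  have := zz_le n
  unfold tt th; nlinarith

theorem tt_anti {j k : ℕ} (h : j ≤ k) : tt k ≤ tt j :=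
  th_mono (zz_anti h) (by have := zz_le j; linarith)

theorem gg_pos (n : ℕ) : 0 < gg n := by
  have := zz_pos n; unfold gg; linarith

theorem gg_le (n : ℕ) : gg n ≤ 3 / 160 := by
  have := zz_le n; unfold gg; linarith

theorem sig_pos (n : ℕ) : 0 < sig n := by
  have := gg_pos n
  have := gg_le n
  unfold sig; nlinarith

theorem sig_le (n : ℕ) : sig n ≤ gg n := by
  unfold sig; nlinarith [sq_nonneg (gg n)]

theorem tau_pos (n : ℕ) : 0 < tau n := by
  have := vv_pos n; unfold tau; linarith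

theorem tp_bounds (n : ℕ) : 1 / 2 < tp n ∧ tp n < 1 ∧ vv n < tp n ∧ vv n < 1 / 2 := by
  have h1 := vv_pos n
  have h2 := vv_le n
  unfold tp tau
  refine ⟨by linarith, by linarith, by linarith, by linarith⟩

/-! The space of coefficient sequences -/

abbrev E : Type := BoundedContinuousFunction ℕ ℝ

theorem coord_le (c c' : E) (k : ℕ) : c k - c' k ≤ dist c c' := by
  have := BoundedContinuousFunction.dist_coe_le_dist (f := c) (g := c') k
  rw [Real.dist_eq] at this
  exact le_trans (le_abs_self _) this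

/-- The constraint set. -/
def InC (p : ℕ → ℝ) (c : E) : Prop := ∀ j k, j ≠ k → c j + c k ≤ 2 * min (p j) (p k)

noncomputable def combV (p : ℕ → ℝ) (m : ℕ) (x : ℝ) (k : ℕ) : ℝ :=
  if k = m then x else p k - |min x (p m) - p k| - max 0 (x - p m)

theorem combV_bound {p : ℕ → ℝ} (hp : ∀ k, 0 ≤ p k) (m : ℕ) {x : ℝ} (hx : 0 ≤ x) (k : ℕ) :
    |combV p m x k| ≤ x := by
  unfold combV
  split_ifs with h
  · rw [abs_of_nonneg hx]
  · have h1 := hp k
    have h2 := hp m
    rcases le_total x (p m) with h3 | h3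
    · rw [min_eq_left h3, max_eq_left (by linarith)]
      rw [abs_le]
      rcases abs_cases (x - p k) with ⟨h4, h5⟩ | ⟨h4, h5⟩ <;> rw [h4] <;> constructor <;> linarith
    · rw [min_eq_right h3, max_eq_right (by linarith)]
      rw [abs_le]
      rcases abs_cases (p m - p k) with ⟨h4, h5⟩ | ⟨h4, h5⟩ <;> rw [h4] <;> constructor <;>
        linarith

theorem combV_lip (p : ℕ → ℝ) (m : ℕ) (x y : ℝ) (k : ℕ) :
    |combV p m x k - combV p m y k| ≤ |x - y| := by
  unfold combV
  split_ifs with h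
  · exact le_refl _
  · rcases le_total x (p m) with h3 | h3 <;> rcases le_total y (p m) with h4 | h4
    · rw [min_eq_left h3, max_eq_left (by linarith), min_eq_left h4, max_eq_left (by linarith)]
      rw [abs_le]
      rcases abs_cases (x - p k) with ⟨h5, h6⟩ | ⟨h5, h6⟩ <;>
      rcases abs_cases (y - p k) with ⟨h7, h8⟩ | ⟨h7, h8⟩ <;>
      rcases abs_cases (x - y) with ⟨h9, h10⟩ | ⟨h9, h10⟩ <;>
      rw [h5, h7, h9] <;> constructor <;> linarith
    · rw [min_eq_left h3, max_eq_left (by linarith), min_eq_right h4, max_eq_right (by linarith)]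
      rw [abs_le]
      rcases abs_cases (x - p k) with ⟨h5, h6⟩ | ⟨h5, h6⟩ <;>
      rcases abs_cases (p m - p k) with ⟨h7, h8⟩ | ⟨h7, h8⟩ <;>
      rcases abs_cases (x - y) with ⟨h9, h10⟩ | ⟨h9, h10⟩ <;>
      rw [h5, h7, h9] <;> constructor <;> linarith
    · rw [min_eq_right h3, max_eq_right (by linarith), min_eq_left h4, max_eq_left (by linarith)]
      rw [abs_le]
      rcases abs_cases (p m - p k) with ⟨h5, h6⟩ | ⟨h5, h6⟩ <;>
      rcases abs_cases (y - p k) with ⟨h7, h8⟩ | ⟨h7, h8⟩ <;>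
      rcases abs_cases (x - y) with ⟨h9, h10⟩ | ⟨h9, h10⟩ <;>
      rw [h5, h7, h9] <;> constructor <;> linarith
    · rw [min_eq_right h3, max_eq_right (by linarith), min_eq_right h4,
        max_eq_right (by linarith)]
      rw [abs_le]
      rcases abs_cases (x - y) with ⟨h9, h10⟩ | ⟨h9, h10⟩ <;>
      rw [h9] <;> constructor <;> linarith

theorem combV_sum {p : ℕ → ℝ} (m : ℕ) (x : ℝ) {j k : ℕ} (hjk : j ≠ k) :
    combV p m x j + combV p m x k ≤ 2 * min (p j) (p k) := by
  unfold combV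
  split_ifs with h h' h'
  · exact absurd (h.trans h'.symm) hjk
  · subst h
    rcases le_total x (p j) with h3 | h3
    · rw [min_eq_left h3, max_eq_left (by linarith)]
      rcases abs_cases (x - p k) with ⟨h5, h6⟩ | ⟨h5, h6⟩ <;> rw [h5] <;>
      rcases le_total (p j) (p k) with h7 | h7 <;>
      (first | rw [min_eq_left h7] | rw [min_eq_right h7]) <;> linarith
    · rw [min_eq_right h3, max_eq_right (by linarith)]
      rcases abs_cases (p j - p k) with ⟨h5, h6⟩ | ⟨h5, h6⟩ <;> rw [h5] <;>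
      rcases le_total (p j) (p k) with h7 | h7 <;>
      (first | rw [min_eq_left h7] | rw [min_eq_right h7]) <;> linarith
  · subst h'
    rcases le_total x (p k) with h3 | h3
    · rw [min_eq_left h3, max_eq_left (by linarith)]
      rcases abs_cases (x - p j) with ⟨h5, h6⟩ | ⟨h5, h6⟩ <;> rw [h5] <;>
      rcases le_total (p j) (p k) with h7 | h7 <;>
      (first | rw [min_eq_left h7] | rw [min_eq_right h7]) <;> linarith
    · rw [min_eq_right h3, max_eq_right (by linarith)]
      rcases abs_cases (p k - p j) with ⟨h5, h6⟩ | ⟨h5, h6⟩ <;> rw [h5] <;>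
      rcases le_total (p j) (p k) with h7 | h7 <;>
      (first | rw [min_eq_left h7] | rw [min_eq_right h7]) <;> linarith
  · have h1 : 0 ≤ max 0 (x - p m) := le_max_left _ _
    generalize min x (p m) = y
    generalize max 0 (x - p m) = q at h1
    rcases abs_cases (y - p j) with ⟨h5, h6⟩ | ⟨h5, h6⟩ <;>
    rcases abs_cases (y - p k) with ⟨h8, h9⟩ | ⟨h8, h9⟩ <;> rw [h5, h8] <;>
    rcases le_total (p j) (p k) with h7 | h7 <;>
    (first | rw [min_eq_left h7] | rw [min_eq_right h7]) <;> linarith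

theorem combV_eq {p : ℕ → ℝ} {m m' : ℕ} {x : ℝ} (h : x ≤ p m) (h' : x ≤ p m') (k : ℕ) :
    combV p m x k = combV p m' x k := by
  unfold combV
  rw [min_eq_left h, min_eq_left h', max_eq_left (by linarith), max_eq_left (by linarith)]
  have key : ∀ j, x ≤ p j → x = p j - |x - p j| - 0 := by
    intro j hj
    rw [abs_of_nonpos (by linarith)]; ring
  split_ifs with h1 h2 h2
  · rfl
  · rw [h1]; exact key m h
  · rw [h2]; exact (key m' h').symm
  · rfl

theorem combV_zero {p : ℕ → ℝ} (hp : ∀ k, 0 ≤ p k) (m k : ℕ) : combV p m 0 k = 0 := by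
  have := combV_bound hp m le_rfl k
  exact abs_nonpos_iff.mp this

/-- The comb path in `E`. -/
noncomputable def comb (p : ℕ → ℝ) (hp : ∀ k, 0 ≤ p k) (m : ℕ) (x : ℝ) : E :=
  BoundedContinuousFunction.ofNormedAddCommGroupDiscrete (combV p m (max x 0)) (max x 0)
    (fun k => combV_bound hp m (le_max_right _ _) k)

theorem comb_apply (p : ℕ → ℝ) (hp : ∀ k, 0 ≤ p k) (m : ℕ) {x : ℝ} (hx : 0 ≤ x) (k : ℕ) :
    comb p hp m x k = combV p m x k := by
  unfold comb
  simp [max_eq_left hx]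

theorem comb_self (p : ℕ → ℝ) (hp : ∀ k, 0 ≤ p k) (m : ℕ) {x : ℝ} (hx : 0 ≤ x) :
    comb p hp m x m = x := by
  rw [comb_apply p hp m hx]; unfold combV; simp

theorem comb_lip (p : ℕ → ℝ) (hp : ∀ k, 0 ≤ p k) (m : ℕ) {x y : ℝ} (hx : 0 ≤ x) (hy : 0 ≤ y) :
    dist (comb p hp m x) (comb p hp m y) ≤ |x - y| := by
  rw [BoundedContinuousFunction.dist_le (abs_nonneg _)]
  intro k
  rw [comb_apply p hp m hx, comb_apply p hp m hy, Real.dist_eq]
  exact combV_lip p m x y k

theorem comb_inC (p : ℕ → ℝ) (hp : ∀ k, 0 ≤ p k) (m : ℕ) {x : ℝ} (hx : 0 ≤ x) :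
    InC p (comb p hp m x) := by
  intro j k hjk
  rw [comb_apply p hp m hx, comb_apply p hp m hx]
  exact combV_sum m x hjk

theorem comb_eq (p : ℕ → ℝ) (hp : ∀ k, 0 ≤ p k) {m m' : ℕ} {x : ℝ} (hx : 0 ≤ x)
    (h : x ≤ p m) (h' : x ≤ p m') : comb p hp m x = comb p hp m' x := by
  ext k
  rw [comb_apply p hp m hx, comb_apply p hp m' hx]
  exact combV_eq h h' k

theorem comb_zero (p : ℕ → ℝ) (hp : ∀ k, 0 ≤ p k) (m : ℕ) : comb p hp m 0 = 0 := by
  ext k
  rw [comb_apply p hp m le_rfl, combV_zero hp]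
  rfl

theorem inC_zero {p : ℕ → ℝ} (hp : ∀ k, 0 ≤ p k) : InC p 0 := by
  intro j k _
  have h1 := hp j
  have h2 := hp k
  have : 0 ≤ min (p j) (p k) := le_min h1 h2
  simp only [BoundedContinuousFunction.coe_zero, Pi.zero_apply]
  linarith

theorem inC_convex {p : ℕ → ℝ} {c c' : E} (h : InC p c) (h' : InC p c') {r : ℝ}
    (h0 : 0 ≤ r) (h1 : r ≤ 1) : InC p (c + r • (c' - c)) := by
  intro j k hjk
  have h2 := h j k hjk
  have h3 := h' j k hjk
  simp only [BoundedContinuousFunction.coe_add, BoundedContinuousFunction.coe_smul,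
    BoundedContinuousFunction.coe_sub, Pi.add_apply, Pi.sub_apply, smul_eq_mul]
  nlinarith

/-! The convexity lemma -/

noncomputable def ee (b : Bool) (x : ℝ) : ℝ := if b then (max x 0) ^ 2 else max x 0

theorem ee_nonneg (b : Bool) (x : ℝ) : 0 ≤ ee b x := by
  unfold ee; split_ifs <;> positivity

theorem ee_mono (b : Bool) {x y : ℝ} (h : x ≤ y) : ee b x ≤ ee b y := by
  unfold ee
  have h1 : max x 0 ≤ max y 0 := max_le_max_right _ h
  split_ifs
  · exact pow_le_pow_left₀ (le_max_right _ _) h1 2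
  · exact h1

theorem ee_conv (b : Bool) {x y z : ℝ} (hx : x ≤ z) (hy : y ≤ z) :
    ee b x + ee b y ≤ ee b z + ee b (x + y - z) := by
  unfold ee
  rcases le_total x 0 with h1 | h1 <;> rcases le_total y 0 with h2 | h2 <;>
    rcases le_total z 0 with h3 | h3 <;> rcases le_total (x + y - z) 0 with h4 | h4 <;>
    simp only [h1, h2, h3, h4, max_eq_right, max_eq_left] <;> split_ifs <;>
    nlinarith [mul_nonneg (sub_nonneg.2 hx) (sub_nonneg.2 hy), sq_nonneg x, sq_nonneg y,
      sq_nonneg z, sq_nonneg (x + y - z)]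

end Pool.Agent.H32.LC
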