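import Pool.Agent.H32.LC.Limit

/-!
# The Lion has no winning strategy even without a time limit

Same proof as `lion_loses`, where the time limit is not used.
-/

set_option autoImplicit false

namespace Pool.Agent.H32.LC

open NNReal

/-- No Lion strategy wins, even without a time limit. -/
theorem lion_loses_ever : ¬ ∃ Ψ : (ℝ≥0 → Arena) → (ℝ≥0 → Arena),
    (∀ g : ℝ≥0 → Arena, LipschitzWith 1 g → g 0 = yA → LipschitzWith 1 (Ψ g) ∧ Ψ g 0 = xA) ∧
    (∀ g g' : ℝ≥0 → Arena, LipschitzWith 1 g → g 0 = yA → LipschitzWith 1 g' → g' 0 = yA →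
      ∀ t : ℝ≥0, (∀ s ≤ t, g s = g' s) → Ψ g t = Ψ g' t) ∧
    (∀ g : ℝ≥0 → Arena, LipschitzWith 1 g → g 0 = yA → ∃ t, Ψ g t = g t) := by
  rintro ⟨Ψ, hΨ1, hΨ2, hΨ3⟩
  obtain ⟨hf1, hf2⟩ := hΨ1 (chrX 0) (chrX_lip 0) (chrX_zero 0)
  have hF := lionMotion hf1 hf2
  obtain ⟨m, hm⟩ := hF.exists_good
  obtain ⟨hg1, hg2⟩ := hΨ1 (chrX m) (chrX_lip m) (chrX_zero m)
  have hG := lionMotion hg1 hg2
  have h1 := tt_pos m
  have h2 := tt_le m
  -- the two responses agree at time tt m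
  have hagree : pos (Ψ (chrX m)) (tt m) = pos (Ψ (chrX 0)) (tt m) := by
    have h3 : Ψ (chrX m) ⟨tt m, h1.le⟩ = Ψ (chrX 0) ⟨tt m, h1.le⟩ := by
      apply hΨ2 _ _ (chrX_lip m) (chrX_zero m) (chrX_lip 0) (chrX_zero 0)
      intro s hs
      unfold chrX
      congr 1
      exact Subtype.ext (chrRaw_option s.2 hs)
    exact pos_congr (t := ⟨tt m, h1.le⟩) h3
  have hu : 1 / 2 + sig m - tt m < (pos (Ψ (chrX m)) (tt m)).u := by rw [hagree]; exact hm
  obtain ⟨h4, h5⟩ := hG.height h1.le (by linarith)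
  have hQ : QQ m (pos (Ψ (chrX m)) (tt m)) < tt m - 1 / 2 - sig m := by
    unfold QQ
    rw [h4]
    simp only [Bool.false_eq_true, if_false]
    rw [ee_false (hG.good _).1]
    linarith
  obtain ⟨t, ht⟩ := hΨ3 (chrX m) (chrX_lip m) (chrX_zero m)
  have hd : dist (pos (Ψ (chrX m)) t) (chrRaw m t) = 0 := by
    rw [pos_congr ht]
    exact pos_chrX t.2
  rcases le_total (tt m) t with h6 | h6
  · have h7 := QQ_lip m (pos (Ψ (chrX m)) t) (chrRaw m t)
    have hq : QQ m (chrRaw m (t : ℝ)) = (t : ℝ) - 1 / 2 - sig m := chrRaw_QQ t.2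
    rw [hd, hq, abs_le] at h7
    have h8 := QQ_lip m (pos (Ψ (chrX m)) t) (pos (Ψ (chrX m)) (tt m))
    have h9 := hG.lip t (tt m)
    rw [abs_of_nonneg (by linarith)] at h9
    rw [abs_le] at h8
    linarith [h7.1, h7.2, h8.1, h8.2]
  · have h6' : (t : ℝ) ≤ tt m := h6
    obtain ⟨h7, h8⟩ := hG.height (t := t) t.2 (by linarith)
    have h9 := SS_lip (pos (Ψ (chrX m)) t) (chrRaw m t)
    rw [hd, abs_le] at h9
    have h10 : SS (pos (Ψ (chrX m)) t) = (pos (Ψ (chrX m)) t).u := by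
      unfold SS
      rw [h7]
      simp only [Bool.false_eq_true, if_false]
      exact ee_false (hG.good _).1
    have h11 : SS (chrRaw m t) ≤ 0 := by
      have h12 := tMin_gt m
      rw [chrRaw_low (by linarith)]
      unfold SS chrLow
      simp only [if_true]
      have := ee_nonneg true (√(1 - (t : ℝ)))
      linarith
    linarith [h9.1, h9.2]

end Pool.Agent.H32.LC
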