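import Pool.Agent.H32.LC.Pursuit

set_option autoImplicit false

namespace Pool.Agent.H32.LC

open NNReal Filter Topology

noncomputable def constCurve (c : E) (hc : InC zz c) : Curve where
  f _ := c
  lip := by intro s t; simp
  mem := fun _ => hc

theorem Resp.init {n : ℕ} {G : Curve → ℝ → Raw} (h : Resp n G) : Nonempty (St n G) := by
  set γ0 := constCurve 0 (inC_zero zz_nonneg) with hγ0
  have htp := tp_nonneg n
  have hs := h.side0 γ0
  have hg := h.good γ0 (tp n)
  have hc := (hg.2.1 hs).1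
  set γ1 := constCurve (G γ0 (tp n)).c hc with hγ1
  have he : G γ1 (tp n + (0 : ℝ) ^ 2) = G γ0 (tp n) := by
    have h1 := h.causal0 γ1 γ0 (tp n) htp le_rfl
    simpa using h1
  refine ⟨⟨γ1, 0, le_rfl, zero_le_one, fun s _ => rfl, by rw [he]; exact hs,
    by rw [he]; exact hg.1, ?_⟩⟩
  rw [he]
  have : dist (γ1.f 0) (G γ0 (tp n)).c = 0 := by
    simp [hγ1, constCurve]
  rw [this]
  nlinarith [sq_nonneg (G γ0 (tp n)).u]

theorem Resp.false {n : ℕ} {G : Curve → ℝ → Raw} (h : Resp n G) : False := by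
  obtain ⟨σ0⟩ := h.init
  choose f hf using h.step
  set σ : ℕ → St n G := fun k => f^[k] σ0 with hσ
  have hrel : ∀ k, Rel (σ k) (σ (k + 1)) := by
    intro k
    have : σ (k + 1) = f (σ k) := by
      simp only [hσ, Function.iterate_succ_apply']
    rw [this]; exact hf _
  set b : ℕ → ℝ := fun k => (σ k).b with hb
  have hmono : Monotone b := monotone_nat_of_le_succ (fun k => (hrel k).bb)
  have hbdd : BddAbove (Set.range b) := ⟨1, by rintro _ ⟨k, rfl⟩; exact (σ k).b1⟩
  obtain ⟨B, hB⟩ : ∃ B, Tendsto b atTop (𝓝 B) := ⟨_, tendsto_atTop_ciSup hmono hbdd⟩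
  have hbB : ∀ k, b k ≤ B := fun k => hmono.ge_of_tendsto hB k
  have hB1 : B ≤ 1 := le_of_tendsto' hB (fun k => (σ k).b1)
  have hb0 : ∀ k, 0 ≤ b k := fun k => (σ k).b0
  have hB0 : 0 ≤ B := (hb0 0).trans (hbB 0)
  -- closeness
  have hclose : ∀ j i s, dist ((σ (j + i)).γ.f s) ((σ j).γ.f s) ≤ b (j + i) - b j := by
    intro j i s
    induction i with
    | zero => simp
    | succ i ih =>
      have h1 := (hrel (j + i)).close s
      have h2 := dist_triangle ((σ (j + i + 1)).γ.f s) ((σ (j + i)).γ.f s) ((σ j).γ.f s)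
      have h3 : (σ (j + i + 1)).b = b (j + (i + 1)) := rfl
      have h4 : (σ (j + i)).b = b (j + i) := rfl
      rw [h3, h4] at h1
      show dist ((σ (j + i + 1)).γ.f s) ((σ j).γ.f s) ≤ b (j + (i + 1)) - b j
      linarith
  have hagree : ∀ j i s, s ≤ b j → (σ (j + i)).γ.f s = (σ j).γ.f s := by
    intro j i s hs
    induction i with
    | zero => rfl
    | succ i ih =>
      have h1 := (hrel (j + i)).agree s (hs.trans (hmono (Nat.le_add_right j i)))
      exact h1.trans ih
  have hcau : ∀ s, CauchySeq (fun k => (σ k).γ.f s) := by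
    intro s
    apply cauchySeq_of_le_tendsto_0 (fun N => B - b N)
    · have key : ∀ i j N, N ≤ i → i ≤ j →
          dist ((σ i).γ.f s) ((σ j).γ.f s) ≤ B - b N := by
        intro i j N h1 h2
        obtain ⟨d, rfl⟩ := Nat.exists_eq_add_of_le h2
        rw [dist_comm]
        have h3 := hclose i d s
        have h4 := hmono h1
        have h5 := hbB (i + d)
        linarith
      intro i j N h1 h2
      rcases le_total i j with h3 | h3
      · exact key i j N h1 h3
      · rw [dist_comm]; exact key j i N h2 h3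
    · have := (tendsto_const_nhds (x := B)).sub hB
      rwa [sub_self] at this
  choose L hL using fun s => cauchySeq_tendsto_of_complete (hcau s)
  let γ : Curve :=
    { f := L
      lip := by
        intro s t
        exact le_of_tendsto' ((hL s).dist (hL t)) (fun k => (σ k).γ.lip s t)
      mem := by
        intro s j k hjk
        have h1 : ∀ i : ℕ, Tendsto (fun k => ((σ k).γ.f s) i) atTop (𝓝 (L s i)) := by
          intro i
          exact (BoundedContinuousFunction.tendsto_iff_tendstoUniformly.mp (hL s)).tendsto_at i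
        exact le_of_tendsto' ((h1 j).add (h1 k)) (fun i => (σ i).γ.mem s j k hjk) }
  have hγ : ∀ k s, s ≤ b k → γ.f s = (σ k).γ.f s := by
    intro k s hs
    have h1 : Tendsto (fun i => (σ i).γ.f s) atTop (𝓝 ((σ k).γ.f s)) := by
      apply tendsto_const_nhds.congr'
      filter_upwards [eventually_ge_atTop k] with i hi
      obtain ⟨d, rfl⟩ := Nat.exists_eq_add_of_le hi
      exact (hagree k d s hs).symm
    exact tendsto_nhds_unique (hL s) h1
  have htp := tp_nonneg n
  have htp1 := (tp_bounds n).2.1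
  -- final estimate
  have hfin : ∀ k, dist (G γ (tp n + B ^ 2)) (lionRaw n γ (tp n + B ^ 2)) ≤
      4 * (B - b k) + 4 * √(B - b k) := by
    intro k
    have hk0 := hb0 k
    have hk1 := hb0 (k + 1)
    have hkB := hbB k
    have hkB1 := hbB (k + 1)
    have hkk : b k ≤ b (k + 1) := hmono (Nat.le_succ k)
    have e1 : G γ (tp n + b k ^ 2) = (σ k).P := by
      apply h.causal γ (σ k).γ (b k) hk0 (hγ k) _ (by positivity) le_rfl
    have e2 : dist (lionRaw n γ (tp n + b (k + 1) ^ 2)) ⟨true, (σ k).P.c, b (k + 1)⟩ = 0 := by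
      have h1 := lion_at (n := n) (γ := γ) hk1 (hkB1.trans hB1)
      rw [hγ (k + 1) (b (k + 1)) le_rfl] at h1
      have h2 := (hrel k).target
      have h3 : (σ (k + 1)).b = b (k + 1) := rfl
      rw [h3] at h2
      rwa [h2] at h1
    have hPs : (σ k).P.side = true := (σ k).side
    have hPg : Good (σ k).P := h.good _ _
    have hPu1 : (σ k).P.u ≤ 1 := h.level (σ k).b0 (σ k).b1 (σ k).side
    have hPu : b (k + 1) ≤ (σ k).P.u := (hrel k).bu
    have hgap : ((σ k).P.u - b k) ^ 2 ≤ 4 * (b (k + 1) - b k) := (hrel k).gap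
    have e3 : dist (σ k).P ⟨true, (σ k).P.c, b (k + 1)⟩ = (σ k).P.u ^ 2 - b (k + 1) ^ 2 := by
      have h1 := dist_K (P := (σ k).P) (Q := ⟨true, (σ k).P.c, b (k + 1)⟩) hPs rfl hPg.1 hk1
        (by simp)
      rw [h1, abs_of_nonneg (by simp only; nlinarith)]
    have e4 := h.lip γ (tp n + B ^ 2) (tp n + b k ^ 2)
    rw [e1, abs_of_nonneg (by nlinarith)] at e4
    have e5 := lionRaw_dist (n := n) (γ := γ) (s := tp n + b (k + 1) ^ 2) (t := tp n + B ^ 2)
      (by positivity) (by nlinarith)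
    have t1 := dist_triangle4 (G γ (tp n + B ^ 2)) (σ k).P ⟨true, (σ k).P.c, b (k + 1)⟩
      (lionRaw n γ (tp n + b (k + 1) ^ 2))
    have t2 := dist_triangle (G γ (tp n + B ^ 2)) (lionRaw n γ (tp n + b (k + 1) ^ 2))
      (lionRaw n γ (tp n + B ^ 2))
    rw [dist_comm (⟨true, (σ k).P.c, b (k + 1)⟩ : Raw) (lionRaw n γ (tp n + b (k + 1) ^ 2)),
      e2, e3] at t1
    have hub : (σ k).P.u - b k ≤ 2 * √(B - b k) := by
      have h1 : ((σ k).P.u - b k) ^ 2 ≤ (2 * √(B - b k)) ^ 2 := by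
        rw [mul_pow, Real.sq_sqrt (by linarith)]
        linarith
      exact le_of_sq_le h1 (by positivity)
    have hB2 : B ^ 2 - b k ^ 2 ≤ 2 * (B - b k) := by nlinarith
    have hB3 : B ^ 2 - b (k + 1) ^ 2 ≤ 2 * (B - b k) := by nlinarith
    have hP2 : (σ k).P.u ^ 2 - b (k + 1) ^ 2 ≤ 2 * ((σ k).P.u - b k) := by nlinarith
    linarith
  have hlim : Tendsto (fun k => 4 * (B - b k) + 4 * √(B - b k)) atTop (𝓝 0) := by
    have h1 : Tendsto (fun k => B - b k) atTop (𝓝 0) := by
      have := (tendsto_const_nhds (x := B)).sub hB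
      rwa [sub_self] at this
    have h2 : Tendsto (fun k => √(B - b k)) atTop (𝓝 0) := by
      have := h1.sqrt
      rwa [Real.sqrt_zero] at this
    have := (h1.const_mul 4).add (h2.const_mul 4)
    simpa using this
  have hle : dist (G γ (tp n + B ^ 2)) (lionRaw n γ (tp n + B ^ 2)) ≤ 0 :=
    ge_of_tendsto' hlim hfin
  exact h.avoid γ (tp n + B ^ 2) (by positivity) (by nlinarith)
    (le_antisymm hle dist_nonneg)

/-! Christian side analysis -/

structure CMotion (F : ℝ → Raw) : Prop where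
  good : ∀ t, Good (F t)
  lip : ∀ s t, dist (F s) (F t) ≤ |s - t|
  start : dist (F 0) y0R = 0

theorem SS_y0R : SS y0R = -1 := by
  unfold SS y0R
  simp only [if_true]
  rw [ee_true (by norm_num)]; norm_num

theorem CMotion.height {F : ℝ → Raw} (hF : CMotion F) {t : ℝ} (h0 : 0 ≤ t) (h1 : t < 1) :
    (F t).side = true ∧ 1 - t ≤ (F t).u ^ 2 := by
  have h2 := SS_lip (F t) y0R
  have h3 := hF.lip t 0
  have h4 := dist_triangle (F t) (F 0) y0R
  rw [hF.start] at h4
  rw [sub_zero, abs_of_nonneg h0] at h3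
  rw [SS_y0R, abs_le] at h2
  have h5 : SS (F t) ≤ -1 + t := by linarith
  cases hs : (F t).side
  · exfalso
    unfold SS at h5
    rw [hs] at h5
    simp only [Bool.false_eq_true, if_false] at h5
    have := ee_nonneg false (F t).u
    linarith
  · refine ⟨rfl, ?_⟩
    unfold SS at h5
    rw [hs] at h5
    simp only [if_true] at h5
    rw [ee_true (hF.good t).1] at h5
    linarith

theorem lateral_C {P Q : Raw} (hP : P.side = true) (hQ : Q.side = true) (hP0 : 0 ≤ P.u)
    (hQ0 : 0 ≤ Q.u) {a a' : ℝ} (ha' : 0 < a') (haa : a' ≤ a) (hPa : a ≤ P.u) (hQa : a' ≤ Q.u)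
    (hd : dist P Q ≤ a ^ 2 - a' ^ 2) : dist P.c Q.c ≤ a - a' := by
  obtain ⟨h1, h2⟩ := lateral_K hP hQ hP0 hQ0 hd (by nlinarith)
  have h3 : (P.u + Q.u - a + a') ^ 2 ≤ (P.u + Q.u - dist P.c Q.c) ^ 2 := by
    refine le_trans ?_ h2
    nlinarith [sq_nonneg ((P.u - a) - (Q.u - a')), mul_nonneg (sub_nonneg.2 haa)
      (sub_nonneg.2 hPa)]
  have h4 := le_of_sq_le h3 h1
  linarith

theorem vv_eq (n : ℕ) : 1 - vv n = (1 - zeta n) ^ 2 := by unfold vv th; ring

theorem CMotion.u_ge {F : ℝ → Raw} (hF : CMotion F) (n : ℕ) :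
    (F (vv n)).side = true ∧ 1 - zeta n ≤ (F (vv n)).u := by
  have h1 := vv_pos n
  have h2 := vv_le n
  obtain ⟨h3, h4⟩ := hF.height h1.le (by linarith)
  refine ⟨h3, ?_⟩
  rw [vv_eq] at h4
  exact le_of_sq_le h4 (hF.good _).1

theorem CMotion.lateral0 {F : ℝ → Raw} (hF : CMotion F) (n : ℕ) :
    ‖(F (vv n)).c‖ ≤ zeta n := by
  obtain ⟨h1, h2⟩ := hF.u_ge n
  have h3 := hF.lip (vv n) 0
  have h4 := dist_triangle (F (vv n)) (F 0) y0R
  rw [hF.start] at h4
  rw [sub_zero, abs_of_nonneg (vv_pos n).le] at h3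
  have h5 := zeta_pos n
  have h6 := zeta_le n
  have h7 := lateral_C (P := y0R) (Q := F (vv n)) (a := 1) (a' := 1 - zeta n) rfl h1
    (by norm_num [y0R]) (hF.good _).1 (by linarith) (by linarith) (by norm_num [y0R]) h2
    (by rw [← vv_eq, dist_comm]; linarith)
  have h8 : dist y0R.c (F (vv n)).c = ‖(F (vv n)).c‖ := by simp [y0R]
  rw [h8] at h7
  linarith

theorem CMotion.lateral {F : ℝ → Raw} (hF : CMotion F) (n : ℕ) :
    dist (F (vv (n + 1))).c (F (vv n)).c ≤ zeta n - zeta (n + 1) := by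
  obtain ⟨h1, h2⟩ := hF.u_ge n
  obtain ⟨h3, h4⟩ := hF.u_ge (n + 1)
  have h5 := hF.lip (vv (n + 1)) (vv n)
  have h6 : vv (n + 1) ≤ vv n := vv_anti (Nat.le_succ n)
  have h7 : zeta (n + 1) ≤ zeta n := zeta_anti (Nat.le_succ n)
  have h8 := zeta_le n
  rw [abs_of_nonpos (by linarith)] at h5
  have h9 := vv_eq n
  have h10 := vv_eq (n + 1)
  have h11 := lateral_C (a := 1 - zeta (n + 1)) (a' := 1 - zeta n) h3 h1 (hF.good _).1
    (hF.good _).1 (by linarith) (by linarith) h4 h2 (by linarith)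
  linarith

theorem CMotion.optionA {F : ℝ → Raw} (hF : CMotion F) {n m : ℕ}
    (h : vv n - tp n < QQ m (F (vv n))) : (3 / 4) * zeta n + gg m < (F (vv n)).c m := by
  obtain ⟨h1, h2⟩ := hF.u_ge n
  by_contra hc
  push Not at hc
  have h3 := zeta_pos n
  have h4 := zeta_le n
  have hu := (hF.good (vv n)).1
  have h5 : mu m (F (vv n)) ≤ ((F (vv n)).u + (3 / 4) * zeta n) / 2 := by
    have : mu m (F (vv n)) ≤ ((F (vv n)).u + (F (vv n)).c m - gg m) / 2 := min_le_right _ _
    linarith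
  have h6 := ee_mono true h5
  have h6' : ee true (((F (vv n)).u + (3 / 4) * zeta n) / 2) =
      (((F (vv n)).u + (3 / 4) * zeta n) / 2) ^ 2 := ee_true (by linarith)
  rw [h6'] at h6
  unfold QQ at h
  rw [h1, if_pos rfl, ee_true hu] at h
  have h7 : vv n = 2 * zeta n - zeta n ^ 2 := rfl
  unfold tp tau at h
  have hq : (7 / 8) * vv n - 1 / 2 <
      2 * (((F (vv n)).u + (3 / 4) * zeta n) / 2) ^ 2 - (F (vv n)).u ^ 2 := by linarith
  clear h h6 h6' h5 hc h1
  generalize (F (vv n)).u = u at *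
  rw [h7] at hq
  generalize zeta n = z at *
  have h8 : 0 ≤ (u - (1 - z)) * (u + (1 - z) - (3 / 2) * z) := by
    apply mul_nonneg
    · linarith
    · linarith
  nlinarith [sq_nonneg z]

theorem CMotion.optionB {F : ℝ → Raw} (hF : CMotion F) {n m k : ℕ}
    (hm : (3 / 4) * zeta n + gg m < (F (vv n)).c m)
    (hk : (3 / 4) * zeta (n + 1) + gg k < (F (vv (n + 1))).c k) : k = m := by
  by_contra hkm
  obtain ⟨h1, h2⟩ := hF.u_ge n
  have h3 := hF.lateral n
  have h4 := hF.lateral0 (n + 1)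
  have h5 := le_norm (F (vv (n + 1))).c k
  have h6 := coord_le (F (vv (n + 1))).c (F (vv n)).c k
  have h7 := ((hF.good (vv n)).2.1 h1).1 m k (Ne.symm hkm)
  have h8 := zeta_succ n
  have h9 := zeta_pos (n + 1)
  have h10 : gg k < zeta (n + 1) / 4 := by linarith
  have h11 : zeta k ≤ zeta (n + 1) := by
    apply zeta_gap
    unfold gg zz at h10
    linarith
  have h12 : zz k ≤ (3 / 4) * zeta (n + 1) := by unfold zz; linarith
  have h13 : min (zz m) (zz k) ≤ zz k := min_le_right _ _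
  have h14 : min (zz m) (zz k) ≤ zz m := min_le_left _ _
  unfold gg at hm hk
  linarith

theorem CMotion.exists_good {F : ℝ → Raw} (hF : CMotion F) :
    ∃ n, ∀ m, QQ m (F (vv n)) ≤ vv n - tp n := by
  by_contra hcon
  push Not at hcon
  obtain ⟨m, hm⟩ := hcon 0
  have hall : ∀ n, (3 / 4) * zeta n + gg m < (F (vv n)).c m := by
    intro n
    induction n with
    | zero => exact hF.optionA hm
    | succ n ih =>
      obtain ⟨k, hk⟩ := hcon (n + 1)
      have h1 := hF.optionA hk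
      have h2 := hF.optionB ih h1
      rwa [h2] at h1
  obtain ⟨n, hn⟩ := exists_zeta_lt (gg_pos m)
  have h1 := hall n
  have h2 := hF.lateral0 n
  have h3 := le_norm (F (vv n)).c m
  have h4 := zeta_pos n
  linarith

theorem chrMotion {f : ℝ≥0 → Arena} (hf : LipschitzWith 1 f) (h0 : f 0 = yA) :
    CMotion (pos f) where
  good := pos_good f
  lip := pos_lip hf
  start := pos_zero_y h0

/-- No Christian strategy wins (time limit two). -/
theorem christian_loses : ¬ ∃ Φ : (ℝ≥0 → Arena) → (ℝ≥0 → Arena),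
    (∀ f : ℝ≥0 → Arena, LipschitzWith 1 f → f 0 = xA → LipschitzWith 1 (Φ f) ∧ Φ f 0 = yA) ∧
    (∀ f f' : ℝ≥0 → Arena, LipschitzWith 1 f → f 0 = xA → LipschitzWith 1 f' → f' 0 = xA →
      ∀ t : ℝ≥0, (∀ s ≤ t, f s = f' s) → Φ f t = Φ f' t) ∧
    (∀ f : ℝ≥0 → Arena, LipschitzWith 1 f → f 0 = xA → ∀ t ≤ (2 : ℝ≥0), Φ f t ≠ f t) := by
  rintro ⟨Φ, hΦ1, hΦ2, hΦ3⟩
  set γ0 := constCurve 0 (inC_zero zz_nonneg) with hγ0
  obtain ⟨hg1, hg2⟩ := hΦ1 (lionX 0 γ0) (lionX_lip 0 γ0) (lionX_zero 0 γ0)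
  obtain ⟨n, hn⟩ := (chrMotion hg1 hg2).exists_good
  have hmot : ∀ γ, CMotion (pos (Φ (lionX n γ))) := by
    intro γ
    obtain ⟨h1, h2⟩ := hΦ1 (lionX n γ) (lionX_lip n γ) (lionX_zero n γ)
    exact chrMotion h1 h2
  obtain ⟨t1, t2, t3, t4⟩ := tp_bounds n
  have hv := vv_pos n
  -- general causality
  have hcaus : ∀ (f f' : ℝ≥0 → Arena), LipschitzWith 1 f → f 0 = xA → LipschitzWith 1 f' →
      f' 0 = xA → ∀ t : ℝ, 0 ≤ t → (∀ s : ℝ≥0, (s : ℝ) ≤ t → f s = f' s) →
      pos (Φ f) t = pos (Φ f') t := by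
    intro f f' h1 h2 h3 h4 t ht h5
    have h6 : Φ f ⟨t, ht⟩ = Φ f' ⟨t, ht⟩ := by
      apply hΦ2 f f' h1 h2 h3 h4
      intro s hs
      exact h5 s hs
    exact pos_congr (t := ⟨t, ht⟩) h6
  have hR : Resp n (fun γ => pos (Φ (lionX n γ))) := by
    refine ⟨fun γ => (hmot γ).good, fun γ => (hmot γ).lip, ?_, ?_, ?_, ?_, ?_⟩
    · intro γ
      exact ((hmot γ).height (by linarith) t2).1
    · intro γ m t ht
      have h1 : pos (Φ (lionX n γ)) (vv n) = pos (Φ (lionX 0 γ0)) (vv n) := by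
        apply hcaus _ _ (lionX_lip n γ) (lionX_zero n γ) (lionX_lip 0 γ0) (lionX_zero 0 γ0) _ hv.le
        intro s hs
        unfold lionX
        congr 1
        exact Subtype.ext (lionRaw_option s.2 hs)
      have h2 := hn m
      rw [← h1] at h2
      have h3 := QQ_lip m (pos (Φ (lionX n γ)) t) (pos (Φ (lionX n γ)) (vv n))
      have h4 := (hmot γ).lip t (vv n)
      rw [abs_of_nonneg (by linarith)] at h4
      rw [abs_le] at h3
      linarith [h3.1, h3.2]
    · intro γ γ' b hb hag t ht0 ht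
      apply hcaus _ _ (lionX_lip n γ) (lionX_zero n γ) (lionX_lip n γ') (lionX_zero n γ') _ ht0
      intro s hs
      unfold lionX
      congr 1
      exact Subtype.ext (lionRaw_congr hb hag (hs.trans ht))
    · intro γ γ' t ht0 ht
      apply hcaus _ _ (lionX_lip n γ) (lionX_zero n γ) (lionX_lip n γ') (lionX_zero n γ') _ ht0
      intro s hs
      unfold lionX
      congr 1
      apply Subtype.ext
      show lionRaw n γ s = lionRaw n γ' s
      rw [lionRaw_low (hs.trans ht), lionRaw_low (hs.trans ht)]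
    · intro γ t ht0 ht2 hd
      have h1 : dist (pos (Φ (lionX n γ)) t) (pos (lionX n γ) t) = 0 := by
        have h2 := pos_lionX (n := n) (γ := γ) ht0
        have h3 := dist_triangle (pos (Φ (lionX n γ)) t) (lionRaw n γ t) (pos (lionX n γ) t)
        rw [dist_comm (lionRaw n γ t)] at h3
        have h4 := dist_nonneg (x := pos (Φ (lionX n γ)) t) (y := pos (lionX n γ) t)
        linarith
      have h2 := eq_of_pos (t := ⟨t, ht0⟩) h1
      exact hΦ3 (lionX n γ) (lionX_lip n γ) (lionX_zero n γ) ⟨t, ht0⟩ ht2 h2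
  exact hR.false

/-- A path joining the two starting points. -/
theorem exists_path : Nonempty (Path xA yA) := by
  set γ0 := constCurve 0 (inC_zero zz_nonneg) with hγ0
  have htp := tp_nonneg 0
  set F : ℝ≥0 → Arena := lionX 0 γ0 with hF
  have hcont : Continuous F := (lionX_lip 0 γ0).continuous
  have hend : F ⟨tp 0 + 1, by positivity⟩ = yA := by
    have h1 := lion_at (n := 0) (γ := γ0) (b := 1) zero_le_one le_rfl
    rw [one_pow] at h1
    exact (mk_eq_iff ⟨lionRaw 0 γ0 (tp 0 + 1), lionRaw_good 0 γ0 (by positivity)⟩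
      ⟨y0R, y0R_good⟩).mpr h1
  refine ⟨⟨⟨fun s : unitInterval => F ⟨(tp 0 + 1) * s, by
      have := s.2.1; positivity⟩, ?_⟩, ?_, ?_⟩⟩
  · apply hcont.comp
    apply Continuous.subtype_mk
    fun_prop
  · rw [← lionX_zero 0 γ0]
    show F _ = F _
    congr 1
    apply NNReal.eq
    show (tp 0 + 1) * ((0 : unitInterval) : ℝ) = 0
    simp
  · rw [← hend]
    show F _ = F _
    congr 1
    apply NNReal.eq
    show (tp 0 + 1) * ((1 : unitInterval) : ℝ) = tp 0 + 1
    simp

end Pool.Agent.H32.LC
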