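import Pool.Agent.H32.LC.Paths

set_option autoImplicit false

namespace Pool.Agent.H32.LC

open NNReal

/-! Coordinates of maps into the arena -/

noncomputable def pos (f : ℝ≥0 → Arena) (t : ℝ) : Raw := (rep (f t.toNNReal)).1

theorem pos_good (f : ℝ≥0 → Arena) (t : ℝ) : Good (pos f t) := (rep (f t.toNNReal)).2

theorem pos_lip {f : ℝ≥0 → Arena} (hf : LipschitzWith 1 f) (s t : ℝ) :
    dist (pos f s) (pos f t) ≤ |s - t| := by
  have h1 : dist (pos f s) (pos f t) = dist (f s.toNNReal) (f t.toNNReal) := by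
    rw [← dist_rep]; rfl
  rw [h1]
  have h2 := hf.dist_le_mul s.toNNReal t.toNNReal
  have h3 : dist s.toNNReal t.toNNReal ≤ |s - t| := by
    rw [NNReal.dist_eq, Real.coe_toNNReal', Real.coe_toNNReal']
    exact abs_max_sub_max_le_abs s t 0
  simp only [NNReal.coe_one, one_mul] at h2
  linarith

theorem pos_mk {F : ℝ≥0 → Pt} {t : ℝ} (ht : 0 ≤ t) :
    dist (pos (fun s => mkA (F s)) t) (F ⟨t, ht⟩).1 = 0 := by
  have h := rep_mk (F ⟨t, ht⟩)
  have h2 : t.toNNReal = ⟨t, ht⟩ := Real.toNNReal_of_nonneg ht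
  unfold pos
  rw [h2]
  exact h

theorem eq_of_pos {f f' : ℝ≥0 → Arena} {t : ℝ≥0} (h : dist (pos f t) (pos f' t) = 0) :
    f t = f' t := by
  unfold pos at h
  rw [Real.toNNReal_coe] at h
  have h2 : dist (rep (f t)) (rep (f' t)) = 0 := h
  rw [dist_rep] at h2
  exact dist_eq_zero.mp h2

theorem pos_congr {f f' : ℝ≥0 → Arena} {t : ℝ≥0} (h : f t = f' t) : pos f t = pos f' t := by
  unfold pos
  rw [Real.toNNReal_coe, h]

/-- Reference Raw starting points. -/
noncomputable def x0R : Raw := ⟨false, 0, 1 / 2⟩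
noncomputable def y0R : Raw := ⟨true, 0, 1⟩

theorem x0R_good : Good x0R := by
  refine ⟨by norm_num [x0R], by intro h; simp [x0R] at h,
    fun _ => ⟨inC_zero vv_nonneg, Or.inr ?_⟩⟩
  simp [x0R]

theorem y0R_good : Good y0R := by
  refine ⟨by norm_num [y0R], fun _ => ⟨inC_zero zz_nonneg, Or.inl le_rfl⟩,
    by intro h; simp [y0R] at h⟩

noncomputable def xA : Arena := mkA ⟨x0R, x0R_good⟩
noncomputable def yA : Arena := mkA ⟨y0R, y0R_good⟩

noncomputable def lionX (n : ℕ) (γ : Curve) (t : ℝ≥0) : Arena :=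
  mkA ⟨lionRaw n γ t, lionRaw_good n γ t.2⟩

noncomputable def chrX (m : ℕ) (t : ℝ≥0) : Arena :=
  mkA ⟨chrRaw m t, chrRaw_good m t.2⟩

theorem lip_of_dist {f : ℝ≥0 → Arena} (h : ∀ s t : ℝ≥0, s ≤ t → dist (f s) (f t) ≤ t - s) :
    LipschitzWith 1 f := by
  apply LipschitzWith.of_dist_le_mul
  intro s t
  simp only [NNReal.coe_one, one_mul]
  rw [NNReal.dist_eq]
  rcases le_total s t with h1 | h1
  · have h2 := h s t h1
    rw [abs_of_nonpos (by simpa using h1)]; linarith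
  · have h2 := h t s h1
    rw [dist_comm, abs_of_nonneg (by simpa using h1)]; linarith

theorem lionX_lip (n : ℕ) (γ : Curve) : LipschitzWith 1 (lionX n γ) := by
  apply lip_of_dist
  intro s t hst
  exact (dist_mk ⟨lionRaw n γ s, lionRaw_good n γ s.2⟩ ⟨lionRaw n γ t, lionRaw_good n γ t.2⟩).trans_le
    (lionRaw_dist s.2 hst)

theorem chrX_lip (m : ℕ) : LipschitzWith 1 (chrX m) := by
  apply lip_of_dist
  intro s t hst
  exact (dist_mk ⟨chrRaw m s, chrRaw_good m s.2⟩ ⟨chrRaw m t, chrRaw_good m t.2⟩).trans_le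
    (chrRaw_dist s.2 hst)

theorem lionX_zero (n : ℕ) (γ : Curve) : lionX n γ 0 = xA := by
  unfold lionX xA
  have : lionRaw n γ ((0 : ℝ≥0) : ℝ) = x0R := by
    obtain ⟨h1, h2, h3, h4⟩ := tp_bounds n
    have h5 := vv_pos n
    rw [NNReal.coe_zero, lionRaw_low (by linarith), comb_zero, min_eq_left h5.le]
    unfold x0R; norm_num
  congr 1
  exact Subtype.ext this

theorem chrX_zero (m : ℕ) : chrX m 0 = yA := by
  unfold chrX yA
  have : chrRaw m ((0 : ℝ≥0) : ℝ) = y0R := by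
    have h1 := tMin_gt m
    rw [NNReal.coe_zero, chrRaw_low (by linarith)]
    unfold chrLow y0R
    norm_num
    exact comb_zero zz zz_nonneg m
  congr 1
  exact Subtype.ext this

theorem pos_lionX {n : ℕ} {γ : Curve} {t : ℝ} (ht : 0 ≤ t) :
    dist (pos (lionX n γ) t) (lionRaw n γ t) = 0 :=
  pos_mk (F := fun s : ℝ≥0 => ⟨lionRaw n γ s, lionRaw_good n γ s.2⟩) ht

theorem pos_chrX {m : ℕ} {t : ℝ} (ht : 0 ≤ t) :
    dist (pos (chrX m) t) (chrRaw m t) = 0 :=
  pos_mk (F := fun s : ℝ≥0 => ⟨chrRaw m s, chrRaw_good m s.2⟩) ht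

theorem pos_zero_x {f : ℝ≥0 → Arena} (h : f 0 = xA) : dist (pos f 0) x0R = 0 := by
  unfold pos
  rw [Real.toNNReal_zero, h]
  exact rep_mk _

theorem pos_zero_y {f : ℝ≥0 → Arena} (h : f 0 = yA) : dist (pos f 0) y0R = 0 := by
  unfold pos
  rw [Real.toNNReal_zero, h]
  exact rep_mk _

/-! Lion side analysis -/

/-- A Lipschitz motion in Raw coordinates starting at the Lion start. -/
structure LMotion (F : ℝ → Raw) : Prop where
  good : ∀ t, Good (F t)
  lip : ∀ s t, dist (F s) (F t) ≤ |s - t|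
  start : dist (F 0) x0R = 0

theorem SS_x0R : SS x0R = 1 / 2 := by
  unfold SS x0R
  simp only [Bool.false_eq_true, if_false]
  exact ee_false (by norm_num)

theorem LMotion.height {F : ℝ → Raw} (hF : LMotion F) {t : ℝ} (h0 : 0 ≤ t) (h1 : t < 1 / 2) :
    (F t).side = false ∧ 1 / 2 - t ≤ (F t).u := by
  have h2 := SS_lip (F t) x0R
  have h3 := hF.lip t 0
  have h4 := dist_triangle (F t) (F 0) x0R
  rw [hF.start] at h4
  rw [sub_zero, abs_of_nonneg h0] at h3
  rw [SS_x0R, abs_le] at h2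
  have h5 : 1 / 2 - t ≤ SS (F t) := by linarith
  cases hs : (F t).side
  · refine ⟨rfl, ?_⟩
    unfold SS at h5
    rw [hs] at h5
    simp only [Bool.false_eq_true, if_false] at h5
    rwa [ee_false (hF.good t).1] at h5
  · exfalso
    unfold SS at h5
    rw [hs] at h5
    simp only [if_true] at h5
    have := ee_nonneg true (F t).u
    linarith

theorem LMotion.lateral0 {F : ℝ → Raw} (hF : LMotion F) {t : ℝ} (h0 : 0 ≤ t) (h1 : t < 1 / 2) :
    ‖(F t).c‖ ≤ t := by
  obtain ⟨h2, h3⟩ := hF.height h0 h1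
  have h4 := hF.lip t 0
  have h5 := dist_triangle (F t) (F 0) x0R
  rw [hF.start] at h5
  rw [sub_zero, abs_of_nonneg h0] at h4
  have h6 := lateral_L (P := F t) (Q := x0R) h2 rfl (hF.good t).1 (by norm_num [x0R])
    (A := t) (by linarith) (by simp only [x0R]; linarith)
  have h7 : dist (F t).c x0R.c = ‖(F t).c‖ := by
    simp [x0R]
  rwa [h7] at h6

theorem LMotion.lateral {F : ℝ → Raw} (hF : LMotion F) {s t : ℝ} (h0 : 0 ≤ s) (hst : s ≤ t)
    (h1 : t ≤ 1 / 4) : dist (F t).c (F s).c ≤ t - s := by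
  obtain ⟨h2, h3⟩ := hF.height h0 (by linarith)
  obtain ⟨h4, h5⟩ := hF.height (h0.trans hst) (by linarith)
  have h6 := hF.lip t s
  rw [abs_of_nonneg (by linarith)] at h6
  exact lateral_L h4 h2 (hF.good t).1 (hF.good s).1 h6 (by linarith)

theorem sig_lt (m : ℕ) : sig m < tt m / 8 := by
  have h1 := zz_pos m
  have h2 := zz_le m
  unfold sig gg tt th; nlinarith

theorem LMotion.optionA {F : ℝ → Raw} (hF : LMotion F) {m : ℕ}
    (h : (F (tt m)).u ≤ 1 / 2 + sig m - tt m) :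
    ∃ n, tau n + tt m - sig m ≤ (F (tt m)).c n := by
  have h1 := tt_pos m
  have h2 := tt_le m
  have h3 := hF.lateral0 h1.le (by linarith)
  obtain ⟨h4, h5⟩ := hF.height h1.le (by linarith)
  obtain ⟨h6, h7⟩ := (hF.good (tt m)).2.2 h4
  rcases h7 with ⟨n, hn⟩ | h7
  · exact ⟨n, by linarith⟩
  · exfalso
    have := sig_lt m
    linarith

theorem LMotion.optionB {F : ℝ → Raw} (hF : LMotion F) {m n k : ℕ}
    (hn : tau n + tt m - sig m ≤ (F (tt m)).c n)
    (hk : tau k + tt (m + 1) - sig (m + 1) ≤ (F (tt (m + 1))).c k) : k = n := by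
  by_contra hkn
  have h1 := tt_pos m
  have h2 := tt_le m
  have h3 := tt_pos (m + 1)
  have h4 : tt (m + 1) ≤ tt m := tt_anti (Nat.le_succ m)
  have h5 := hF.lateral h3.le h4 (by linarith)
  have h6 := hF.lateral0 h3.le (by linarith)
  have h7 := le_norm (F (tt (m + 1))).c k
  have h8 := coord_le (F (tt (m + 1))).c (F (tt m)).c k
  rw [dist_comm] at h8
  obtain ⟨h9, h10⟩ := hF.height h1.le (by linarith)
  obtain ⟨h11, _⟩ := (hF.good (tt m)).2.2 h9
  have h12 := h11 n k (Ne.symm hkn)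
  -- tau k ≤ sig (m+1)
  have h13 : tau k ≤ sig (m + 1) := by linarith
  have h14 : vv k < tt (m + 1) := by
    have := sig_lt (m + 1)
    unfold tau at h13; linarith
  have hz1 := zeta_pos k
  have hz2 := zeta_le k
  have hz3 := zeta_pos (m + 1)
  have hz4 := zeta_le (m + 1)
  have h15 : zeta k < zz (m + 1) := by
    by_contra hc
    push Not at hc
    have := th_mono hc (by linarith)
    unfold vv at h14
    unfold tt at h14
    linarith
  have h16 : zeta k ≤ zeta (m + 1 + 1) := by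
    apply zeta_gap
    have := zeta_succ (m + 1)
    unfold zz at h15
    linarith
  have h17 : zeta k ≤ (2 / 3) * zz (m + 1) := by
    have := zeta_succ (m + 1)
    unfold zz; linarith
  have hzz := zz_pos (m + 1)
  have hzz' := zz_le (m + 1)
  have h18 : vv k ≤ th ((2 / 3) * zz (m + 1)) := th_mono h17 (by linarith)
  have h19 : gg m = 2 * (zz (m + 1) / 5) := by
    unfold gg zz; rw [zeta_succ m]; ring
  have h20 := sig_le m
  have h21 := sig_le (m + 1)
  have h22 : gg (m + 1) = zz (m + 1) / 5 := rfl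
  have h23 : min (vv n) (vv k) ≤ vv k := min_le_right _ _
  have h24 : min (vv n) (vv k) ≤ vv n := min_le_left _ _
  have h25 : tt (m + 1) = 2 * zz (m + 1) - zz (m + 1) ^ 2 := rfl
  have h26 : th ((2 / 3) * zz (m + 1)) = (4 / 3) * zz (m + 1) - (4 / 9) * zz (m + 1) ^ 2 := by
    unfold th; ring
  have hw : zz (m + 1) ^ 2 ≤ (3 / 32) * zz (m + 1) := by nlinarith
  unfold tau at hn hk
  generalize min (vv n) (vv k) = M at *
  clear h11 h13 h14 h15 h16 h17 h9 h10 h7 h6 hF
  linarith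

theorem LMotion.exists_good {F : ℝ → Raw} (hF : LMotion F) :
    ∃ m, 1 / 2 + sig m - tt m < (F (tt m)).u := by
  by_contra hcon
  push Not at hcon
  obtain ⟨n, hn⟩ := hF.optionA (hcon 0)
  have hall : ∀ m, tau n + tt m - sig m ≤ (F (tt m)).c n := by
    intro m
    induction m with
    | zero => exact hn
    | succ m ih =>
      obtain ⟨k, hk⟩ := hF.optionA (hcon (m + 1))
      have := hF.optionB ih hk
      rwa [this] at hk
  obtain ⟨m, hm⟩ := exists_zeta_lt (tau_pos n)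
  have h1 := hall m
  have h2 := tt_pos m
  have h3 := tt_le m
  have h4 := hF.lateral0 h2.le (by linarith)
  have h5 := le_norm (F (tt m)).c n
  have h6 := sig_le m
  have h7 := zeta_pos m
  unfold gg zz at h6
  linarith

theorem lionMotion {f : ℝ≥0 → Arena} (hf : LipschitzWith 1 f) (h0 : f 0 = xA) :
    LMotion (pos f) where
  good := pos_good f
  lip := pos_lip hf
  start := pos_zero_x h0

/-- No Lion strategy wins. -/
theorem lion_loses (T : ℝ≥0) : ¬ ∃ Ψ : (ℝ≥0 → Arena) → (ℝ≥0 → Arena),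
    (∀ g : ℝ≥0 → Arena, LipschitzWith 1 g → g 0 = yA → LipschitzWith 1 (Ψ g) ∧ Ψ g 0 = xA) ∧
    (∀ g g' : ℝ≥0 → Arena, LipschitzWith 1 g → g 0 = yA → LipschitzWith 1 g' → g' 0 = yA →
      ∀ t : ℝ≥0, (∀ s ≤ t, g s = g' s) → Ψ g t = Ψ g' t) ∧
    (∀ g : ℝ≥0 → Arena, LipschitzWith 1 g → g 0 = yA → ∃ t ≤ T, Ψ g t = g t) := by
  rintro ⟨Ψ, hΨ1, hΨ2, hΨ3⟩
  obtain ⟨hf1, hf2⟩ := hΨ1 (chrX 0) (chrX_lip 0) (chrX_zero 0)
  have hF := lionMotion hf1 hf2
  obtain ⟨m, hm⟩ := hF.exists_good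
  obtain ⟨hg1, hg2⟩ := hΨ1 (chrX m) (chrX_lip m) (chrX_zero m)
  have hG := lionMotion hg1 hg2
  have h1 := tt_pos m
  have h2 := tt_le m
  -- the two responses agree at time tt m
  have hagree : pos (Ψ (chrX m)) (tt m) = pos (Ψ (chrX 0)) (tt m) := by
    have h3 : Ψ (chrX m) ⟨tt m, h1.le⟩ = Ψ (chrX 0) ⟨tt m, h1.le⟩ := by
      apply hΨ2 _ _ (chrX_lip m) (chrX_zero m) (chrX_lip 0) (chrX_zero 0)
      intro s hs
      unfold chrX
      congr 1
      exact Subtype.ext (chrRaw_option s.2 hs)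
    exact pos_congr (t := ⟨tt m, h1.le⟩) h3
  have hu : 1 / 2 + sig m - tt m < (pos (Ψ (chrX m)) (tt m)).u := by rw [hagree]; exact hm
  obtain ⟨h4, h5⟩ := hG.height h1.le (by linarith)
  have hQ : QQ m (pos (Ψ (chrX m)) (tt m)) < tt m - 1 / 2 - sig m := by
    unfold QQ
    rw [h4]
    simp only [Bool.false_eq_true, if_false]
    rw [ee_false (hG.good _).1]
    linarith
  obtain ⟨t, _, ht⟩ := hΨ3 (chrX m) (chrX_lip m) (chrX_zero m)
  have hd : dist (pos (Ψ (chrX m)) t) (chrRaw m t) = 0 := by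
    rw [pos_congr ht]
    exact pos_chrX t.2
  rcases le_total (tt m) t with h6 | h6
  · have h7 := QQ_lip m (pos (Ψ (chrX m)) t) (chrRaw m t)
    have hq : QQ m (chrRaw m (t : ℝ)) = (t : ℝ) - 1 / 2 - sig m := chrRaw_QQ t.2
    rw [hd, hq, abs_le] at h7
    have h8 := QQ_lip m (pos (Ψ (chrX m)) t) (pos (Ψ (chrX m)) (tt m))
    have h9 := hG.lip t (tt m)
    rw [abs_of_nonneg (by linarith)] at h9
    rw [abs_le] at h8
    linarith [h7.1, h7.2, h8.1, h8.2]
  · have h6' : (t : ℝ) ≤ tt m := h6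
    obtain ⟨h7, h8⟩ := hG.height (t := t) t.2 (by linarith)
    have h9 := SS_lip (pos (Ψ (chrX m)) t) (chrRaw m t)
    rw [hd, abs_le] at h9
    have h10 : SS (pos (Ψ (chrX m)) t) = (pos (Ψ (chrX m)) t).u := by
      unfold SS
      rw [h7]
      simp only [Bool.false_eq_true, if_false]
      exact ee_false (hG.good _).1
    have h11 : SS (chrRaw m t) ≤ 0 := by
      have h12 := tMin_gt m
      rw [chrRaw_low (by linarith)]
      unfold SS chrLow
      simp only [if_true]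
      have := ee_nonneg true (√(1 - (t : ℝ)))
      linarith
    linarith [h9.1, h9.2]

end Pool.Agent.H32.LC
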