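import Pool.Agent.H32.LC.Space

set_option autoImplicit false

namespace Pool.Agent.H32.LC

/-- Admissible lateral curves on the Christian side. -/
structure Curve where
  f : ℝ → E
  lip : ∀ s t, dist (f s) (f t) ≤ |s - t|
  mem : ∀ s, InC zz (f s)

noncomputable def lionRaw (n : ℕ) (γ : Curve) (t : ℝ) : Raw :=
  if t ≤ tp n then ⟨false, comb vv vv_nonneg n t, 1 / 2 - t + min t (vv n) / 8⟩
  else ⟨true, γ.f (min 1 (√(t - tp n))), min 1 (√(t - tp n))⟩

theorem lion_u_nonneg {n : ℕ} {t : ℝ} (h : t ≤ tp n) : 0 ≤ 1 / 2 - t + min t (vv n) / 8 := by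
  obtain ⟨h1, h2, h3, h4⟩ := tp_bounds n
  rcases le_total t (vv n) with h5 | h5
  · rw [min_eq_left h5]; linarith
  · rw [min_eq_right h5]; unfold tp tau at h; linarith

theorem le_norm (c : E) (n : ℕ) : c n ≤ ‖c‖ :=
  le_trans (le_abs_self _) (c.norm_coe_le_norm n)

theorem lionRaw_good (n : ℕ) (γ : Curve) {t : ℝ} (ht : 0 ≤ t) : Good (lionRaw n γ t) := by
  unfold lionRaw
  split_ifs with h
  · refine ⟨lion_u_nonneg h, by intro h; simp at h, fun _ => ⟨comb_inC vv vv_nonneg n ht, ?_⟩⟩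
    simp only
    rcases le_total t (vv n) with h5 | h5
    · right
      have h6 := le_norm (comb vv vv_nonneg n t) n
      rw [comb_self _ _ _ ht] at h6
      rw [min_eq_left h5]; linarith
    · left
      refine ⟨n, ?_⟩
      rw [comb_self _ _ _ ht, min_eq_right h5]
      unfold tau; linarith
  · refine ⟨le_min zero_le_one (Real.sqrt_nonneg _), fun _ => ⟨γ.mem _, Or.inl (min_le_left _ _)⟩,
      by intro h; simp at h⟩

theorem lionRaw_low {n : ℕ} {γ : Curve} {t : ℝ} (h : t ≤ tp n) :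
    lionRaw n γ t = ⟨false, comb vv vv_nonneg n t, 1 / 2 - t + min t (vv n) / 8⟩ := by
  unfold lionRaw; rw [if_pos h]

/-- The apex identification. -/
theorem dist_apex (b b' : Bool) (c c' : E) : dist (⟨b, c, 0⟩ : Raw) ⟨b', c', 0⟩ = 0 := by
  by_cases h : b = b'
  · subst h
    rw [dist_same (show (⟨b, c, 0⟩ : Raw).side = (⟨b, c', 0⟩ : Raw).side from rfl)]
    have h1 : ee b (mm (⟨b, c, 0⟩ : Raw) ⟨b, c', 0⟩) ≤ ee b 0 := ee_mono b (mm_left _ _)
    have h2 := ee_nonneg b (mm (⟨b, c, 0⟩ : Raw) ⟨b, c', 0⟩)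
    have h3 : ee b 0 = 0 := by unfold ee; simp
    simp only
    rw [h3] at h1 ⊢
    linarith
  · rw [dist_diff (by exact h)]
    have h3 : ∀ b, ee b 0 = 0 := by intro b; unfold ee; simp
    simp only
    rw [h3, h3]; ring

theorem tp_u (n : ℕ) : 1 / 2 - tp n + min (tp n) (vv n) / 8 = 0 := by
  obtain ⟨h1, h2, h3, h4⟩ := tp_bounds n
  rw [min_eq_right h3.le]; unfold tp tau; ring

/-- The position in Christian coordinates from time `tp` on. -/
noncomputable def lionK (n : ℕ) (γ : Curve) (t : ℝ) : Raw :=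
  ⟨true, γ.f (min 1 (√(t - tp n))), min 1 (√(t - tp n))⟩

theorem lionRaw_high {n : ℕ} {γ : Curve} {t : ℝ} (h : tp n ≤ t) :
    dist (lionRaw n γ t) (lionK n γ t) = 0 := by
  rcases eq_or_lt_of_le h with h1 | h1
  · subst h1
    rw [lionRaw_low le_rfl, tp_u]
    unfold lionK
    rw [sub_self, Real.sqrt_zero, min_eq_right zero_le_one]
    exact dist_apex _ _ _ _
  · unfold lionRaw lionK
    rw [if_neg (not_le.mpr h1), dist_self]

theorem lionK_dist {n : ℕ} {γ : Curve} {s t : ℝ} (hs : tp n ≤ s) (hst : s ≤ t) :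
    dist (lionK n γ s) (lionK n γ t) ≤ t - s := by
  have h0 : ∀ r : ℝ, 0 ≤ min 1 (√(r - tp n)) := fun r => le_min zero_le_one (Real.sqrt_nonneg _)
  unfold lionK
  rw [dist_K' (h0 s) (h0 t) (γ.lip _ _)]
  have hmono : √(s - tp n) ≤ √(t - tp n) := Real.sqrt_le_sqrt (by linarith)
  have hs2 : √(s - tp n) ^ 2 = s - tp n := Real.sq_sqrt (by linarith)
  have ht2 : √(t - tp n) ^ 2 = t - tp n := Real.sq_sqrt (by linarith)
  have h1 := Real.sqrt_nonneg (s - tp n)
  have h2 := Real.sqrt_nonneg (t - tp n)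
  generalize √(s - tp n) = x at *
  generalize √(t - tp n) = y at *
  have h5 : t - s = y ^ 2 - x ^ 2 := by linarith
  rw [h5]
  rcases le_total 1 x with h3 | h3
  · rw [min_eq_left h3, min_eq_left (h3.trans hmono), sub_self, abs_zero]
    nlinarith
  · rcases le_total 1 y with h4 | h4
    · rw [min_eq_right h3, min_eq_left h4, abs_of_nonpos (by nlinarith)]
      nlinarith
    · rw [min_eq_right h3, min_eq_right h4, abs_of_nonpos (by nlinarith)]
      linarith

theorem lionLow_dist {n : ℕ} {γ : Curve} {s t : ℝ} (hs : 0 ≤ s) (hst : s ≤ t) (ht : t ≤ tp n) :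
    dist (lionRaw n γ s) (lionRaw n γ t) ≤ t - s := by
  rw [lionRaw_low ht, lionRaw_low (hst.trans ht)]
  refine dist_L' (lion_u_nonneg (hst.trans ht)) (lion_u_nonneg ht) ?_ ?_
  · refine le_trans (comb_lip vv vv_nonneg n hs (hs.trans hst)) ?_
    rw [abs_of_nonpos (by linarith)]; linarith
  · rw [abs_le]
    rcases le_total s (vv n) with h1 | h1 <;> rcases le_total t (vv n) with h2 | h2
    · rw [min_eq_left h1, min_eq_left h2]; constructor <;> linarith
    · rw [min_eq_left h1, min_eq_right h2]; constructor <;> linarith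
    · rw [min_eq_right h1, min_eq_left h2]; constructor <;> linarith
    · rw [min_eq_right h1, min_eq_right h2]; constructor <;> linarith

theorem lionRaw_dist {n : ℕ} {γ : Curve} {s t : ℝ} (hs : 0 ≤ s) (hst : s ≤ t) :
    dist (lionRaw n γ s) (lionRaw n γ t) ≤ t - s := by
  have key : ∀ {s t : ℝ}, tp n ≤ s → s ≤ t → dist (lionRaw n γ s) (lionRaw n γ t) ≤ t - s := by
    intro s t h1 h2
    have h3 := lionRaw_high (γ := γ) h1
    have h4 := lionRaw_high (γ := γ) (h1.trans h2)
    have h5 := lionK_dist (γ := γ) h1 h2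
    have h6 := dist_triangle4 (lionRaw n γ s) (lionK n γ s) (lionK n γ t) (lionRaw n γ t)
    rw [dist_comm (lionK n γ t) (lionRaw n γ t)] at h6
    linarith
  rcases le_total t (tp n) with h1 | h1
  · exact lionLow_dist hs hst h1
  · rcases le_total s (tp n) with h2 | h2
    · have h3 := lionLow_dist (γ := γ) hs h2 le_rfl
      have h4 := key le_rfl h1
      have h5 := dist_triangle (lionRaw n γ s) (lionRaw n γ (tp n)) (lionRaw n γ t)
      linarith
    · exact key h2 hst

/-- Two Lion paths with the same option agree as long as the lateral curves agree. -/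
theorem lionRaw_congr {n : ℕ} {γ γ' : Curve} {b : ℝ} (hb : 0 ≤ b)
    (h : ∀ s, s ≤ b → γ.f s = γ'.f s) {t : ℝ} (ht : t ≤ tp n + b ^ 2) :
    lionRaw n γ t = lionRaw n γ' t := by
  unfold lionRaw
  split_ifs with h1
  · rfl
  · have : √(t - tp n) ≤ b := by
      rw [Real.sqrt_le_left hb]; linarith
    rw [h _ (le_trans (min_le_right _ _) this)]

/-- Options agree up to time `vv n`. -/
theorem lionRaw_option {n : ℕ} {γ γ' : Curve} {t : ℝ} (h0 : 0 ≤ t) (ht : t ≤ vv n) :
    lionRaw n γ t = lionRaw 0 γ' t := by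
  obtain ⟨h1, h2, h3, h4⟩ := tp_bounds n
  obtain ⟨h5, h6, h7, h8⟩ := tp_bounds 0
  have h9 : vv n ≤ vv 0 := vv_anti (Nat.zero_le n)
  rw [lionRaw_low (by linarith), lionRaw_low (by linarith), min_eq_left ht,
    min_eq_left (ht.trans h9), comb_eq vv vv_nonneg h0 ht (ht.trans h9)]

/-! Christian paths -/

noncomputable def uMin (m : ℕ) : ℝ := (1 - gg m) / 2
noncomputable def tMin (m : ℕ) : ℝ := 1 - uMin m ^ 2

noncomputable def chrLow (m : ℕ) (t : ℝ) : Raw :=
  ⟨true, comb zz zz_nonneg m (1 - √(1 - t)), √(1 - t)⟩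
noncomputable def chrHigh (m : ℕ) (t : ℝ) : Raw :=
  ⟨true, comb zz zz_nonneg m (√(t - 1 / 2 - sig m) + gg m), √(t - 1 / 2 - sig m)⟩

noncomputable def chrRaw (m : ℕ) (t : ℝ) : Raw := if t ≤ tMin m then chrLow m t else chrHigh m t

theorem uMin_pos (m : ℕ) : 0 < uMin m := by
  have := gg_le m; unfold uMin; linarith

theorem tMin_eq (m : ℕ) : tMin m - 1 / 2 - sig m = uMin m ^ 2 := by
  unfold tMin uMin sig; ring

theorem tMin_lt (m : ℕ) : tMin m < 1 := by
  have := uMin_pos m; unfold tMin; nlinarith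

theorem tMin_gt (m : ℕ) : 3 / 4 < tMin m := by
  have := gg_le m
  have := gg_pos m
  unfold tMin uMin; nlinarith

theorem chr_junction (m : ℕ) : chrLow m (tMin m) = chrHigh m (tMin m) := by
  unfold chrLow chrHigh
  rw [tMin_eq]
  have h1 : 1 - tMin m = uMin m ^ 2 := by unfold tMin; ring
  rw [h1, Real.sqrt_sq (uMin_pos m).le]
  have h2 : 1 - uMin m = uMin m + gg m := by unfold uMin; ring
  rw [h2]

theorem chrRaw_high {m : ℕ} {t : ℝ} (h : tMin m ≤ t) : chrRaw m t = chrHigh m t := by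
  rcases eq_or_lt_of_le h with h1 | h1
  · subst h1; unfold chrRaw; rw [if_pos le_rfl, chr_junction]
  · unfold chrRaw; rw [if_neg (not_le.mpr h1)]

theorem chrRaw_low {m : ℕ} {t : ℝ} (h : t ≤ tMin m) : chrRaw m t = chrLow m t := by
  unfold chrRaw; rw [if_pos h]

theorem sqrt_one_sub_le {t : ℝ} (ht : 0 ≤ t) : √(1 - t) ≤ 1 := by
  rw [Real.sqrt_le_left (by norm_num)]; linarith

theorem chrRaw_good (m : ℕ) {t : ℝ} (ht : 0 ≤ t) : Good (chrRaw m t) := by
  unfold chrRaw
  split_ifs with h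
  · unfold chrLow
    have h1 := sqrt_one_sub_le ht
    refine ⟨Real.sqrt_nonneg _, fun _ => ⟨comb_inC zz zz_nonneg m (by linarith), Or.inl h1⟩,
      by intro h; simp at h⟩
  · unfold chrHigh
    have h1 := gg_pos m
    have h2 := Real.sqrt_nonneg (t - 1 / 2 - sig m)
    refine ⟨Real.sqrt_nonneg _, fun _ => ⟨comb_inC zz zz_nonneg m (by linarith), Or.inr ⟨m, ?_⟩⟩,
      by intro h; simp at h⟩
    simp only
    rw [comb_self _ _ _ (by linarith)]; linarith

theorem chrLow_dist {m : ℕ} {s t : ℝ} (hs : 0 ≤ s) (hst : s ≤ t) (ht : t ≤ 1) :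
    dist (chrLow m s) (chrLow m t) ≤ t - s := by
  unfold chrLow
  have h1 := sqrt_one_sub_le hs
  have h2 := sqrt_one_sub_le (hs.trans hst)
  rw [dist_K' (Real.sqrt_nonneg _) (Real.sqrt_nonneg _)]
  · rw [Real.sq_sqrt (by linarith), Real.sq_sqrt (by linarith), abs_of_nonneg (by linarith)]
    linarith
  · refine le_trans (comb_lip zz zz_nonneg m (by linarith) (by linarith)) ?_
    rw [← abs_neg]
    apply le_of_eq
    ring_nf

theorem chrHigh_dist {m : ℕ} {s t : ℝ} (hs : 0 ≤ s - 1 / 2 - sig m) (hst : s ≤ t) :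
    dist (chrHigh m s) (chrHigh m t) ≤ t - s := by
  unfold chrHigh
  have hg := gg_pos m
  have h1 := Real.sqrt_nonneg (s - 1 / 2 - sig m)
  have h2 := Real.sqrt_nonneg (t - 1 / 2 - sig m)
  rw [dist_K' (Real.sqrt_nonneg _) (Real.sqrt_nonneg _)]
  · rw [Real.sq_sqrt (by linarith), Real.sq_sqrt (by linarith), abs_of_nonpos (by linarith)]
    linarith
  · refine le_trans (comb_lip zz zz_nonneg m (by linarith) (by linarith)) ?_
    apply le_of_eq
    ring_nf

theorem chrRaw_dist {m : ℕ} {s t : ℝ} (hs : 0 ≤ s) (hst : s ≤ t) :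
    dist (chrRaw m s) (chrRaw m t) ≤ t - s := by
  have h0 := tMin_lt m
  have h0' : 0 ≤ tMin m - 1 / 2 - sig m := by rw [tMin_eq]; positivity
  rcases le_total t (tMin m) with h1 | h1
  · rw [chrRaw_low h1, chrRaw_low (hst.trans h1)]
    exact chrLow_dist hs hst (by linarith)
  · rcases le_total s (tMin m) with h2 | h2
    · have h3 : dist (chrRaw m s) (chrRaw m (tMin m)) ≤ tMin m - s := by
        rw [chrRaw_low h2, chrRaw_low le_rfl]
        exact chrLow_dist hs h2 (by linarith)
      have h4 : dist (chrRaw m (tMin m)) (chrRaw m t) ≤ t - tMin m := by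
        rw [chrRaw_high le_rfl, chrRaw_high h1]
        exact chrHigh_dist h0' h1
      have h5 := dist_triangle (chrRaw m s) (chrRaw m (tMin m)) (chrRaw m t)
      linarith
    · rw [chrRaw_high h2, chrRaw_high h1]
      exact chrHigh_dist (by linarith) hst

theorem chrRaw_option {m : ℕ} {t : ℝ} (h0 : 0 ≤ t) (ht : t ≤ tt m) :
    chrRaw m t = chrRaw 0 t := by
  have h1 := tMin_gt m
  have h2 := tMin_gt 0
  have h3 := tt_le m
  rw [chrRaw_low (by linarith), chrRaw_low (by linarith)]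
  unfold chrLow
  have h4 := sqrt_one_sub_le h0
  have h5 : 1 - √(1 - t) ≤ zz m := by
    have h6 : 1 - zz m ≤ √(1 - t) := by
      apply Real.le_sqrt_of_sq_le
      unfold tt th at ht
      nlinarith
    linarith
  rw [comb_eq zz zz_nonneg (by linarith) h5 (h5.trans (zz_anti (Nat.zero_le m)))]

theorem chrRaw_QQ {m : ℕ} {t : ℝ} (h0 : 0 ≤ t) :
    QQ m (chrRaw m t) = t - 1 / 2 - sig m := by
  have hg := gg_pos m
  have hg' := gg_le m
  rcases le_total t (tMin m) with h1 | h1
  · rw [chrRaw_low h1]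
    have h2 := tMin_lt m
    have h4 := sqrt_one_sub_le h0
    have h5 := Real.sqrt_nonneg (1 - t)
    have hmu : mu m (chrLow m t) = uMin m := by
      unfold mu chrLow
      simp only
      rw [comb_self _ _ _ (by linarith)]
      have h3 : uMin m ≤ √(1 - t) := by
        apply Real.le_sqrt_of_sq_le
        unfold tMin at h1
        linarith
      have h6 : (√(1 - t) + (1 - √(1 - t)) - gg m) / 2 = uMin m := by unfold uMin; ring
      rw [h6, min_eq_right h3]
    have hu : (chrLow m t).u = √(1 - t) := rfl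
    have hs : (chrLow m t).side = true := rfl
    unfold QQ
    rw [hs, if_pos rfl, hmu, hu, ee_true (uMin_pos m).le, ee_true h5,
      Real.sq_sqrt (by linarith)]
    have := tMin_eq m
    unfold tMin at this
    linarith
  · rw [chrRaw_high h1]
    have h0' : 0 ≤ tMin m - 1 / 2 - sig m := by rw [tMin_eq]; positivity
    have h5 := Real.sqrt_nonneg (t - 1 / 2 - sig m)
    have hmu : mu m (chrHigh m t) = √(t - 1 / 2 - sig m) := by
      unfold mu chrHigh
      simp only
      rw [comb_self _ _ _ (by linarith)]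
      rw [min_eq_left]
      linarith
    have hu : (chrHigh m t).u = √(t - 1 / 2 - sig m) := rfl
    have hs : (chrHigh m t).side = true := rfl
    unfold QQ
    rw [hs, if_pos rfl, hmu, hu, ee_true h5, Real.sq_sqrt (by linarith)]
    ring

end Pool.Agent.H32.LC
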