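import Pool.Agent.H32.LC.LionLoses

set_option autoImplicit false

namespace Pool.Agent.H32.LC

open NNReal

theorem le_of_sq_le {x y : ℝ} (h : x ^ 2 ≤ y ^ 2) (hy : 0 ≤ y) : x ≤ y :=
  le_trans (le_abs_self x) (abs_le_of_sq_le_sq h hy)

theorem pursuit_arith {a b a' b' r θ W : ℝ} (hb : 0 ≤ b) (hba : b < a) (hr0 : 0 ≤ r)
    (hr : r ^ 2 = 2 * (a ^ 2 + b ^ 2)) (hb' : b' = r - a) (ha' : 0 ≤ a')
    (hE : a ^ 2 - a' ^ 2 ≤ b' ^ 2 - b ^ 2) (hθ : 0 ≤ θ) (hW : W = a + a' - θ) (hW0 : 0 ≤ W)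
    (hW2 : 2 * (a ^ 2 + a' ^ 2 - (b' ^ 2 - b ^ 2)) ≤ W ^ 2) :
    b < b' ∧ b' < a ∧ b' ≤ a' ∧ (θ + a' + b') ^ 2 ≤ 2 * (a' ^ 2 + b' ^ 2) := by
  have h1 : r < 2 * a := by nlinarith
  have h2 : a + b < r := by nlinarith
  have hb0 : 0 ≤ b' := by linarith
  have h3 : b' ≤ r / 2 := by linarith
  have h4 : b' ^ 2 ≤ r ^ 2 / 4 := by nlinarith
  have h5 : b' ≤ a' := by
    apply le_of_sq_le _ ha'
    nlinarith
  refine ⟨by linarith, by linarith, h5, ?_⟩
  set P := r ^ 2 + 2 * a' ^ 2 - 2 * b' ^ 2 with hP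
  set Q := 2 * (a' ^ 2 + b' ^ 2) with hQ
  have hP0 : 0 ≤ P := by rw [hP]; nlinarith
  have hQ0 : 0 ≤ Q := by rw [hQ]; positivity
  have hp := Real.sqrt_nonneg P
  have hq := Real.sqrt_nonneg Q
  have hp2 := Real.sq_sqrt hP0
  have hq2 := Real.sq_sqrt hQ0
  set p := √P
  set q := √Q
  have hQr : r ^ 2 ≤ Q := by rw [hQ]; linarith
  have hPQ : (2 * a' * r) ^ 2 ≤ (p * q) ^ 2 := by
    rw [mul_pow p q, hp2, hq2]
    have h6 : P * Q - (2 * a' * r) ^ 2 = 2 * (a' ^ 2 - b' ^ 2) * (Q - r ^ 2) := by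
      rw [hP, hQ]; ring
    have h7 : 0 ≤ a' ^ 2 - b' ^ 2 := by nlinarith
    have h8 : 0 ≤ 2 * (a' ^ 2 - b' ^ 2) * (Q - r ^ 2) := by
      apply mul_nonneg <;> linarith
    linarith
  have hpq : 2 * a' * r ≤ p * q := le_of_sq_le hPQ (mul_nonneg hp hq)
  have hsum : r + 2 * a' ≤ p + q := by
    apply le_of_sq_le _ (add_nonneg hp hq)
    have : P + Q = r ^ 2 + 4 * a' ^ 2 := by rw [hP, hQ]; ring
    nlinarith
  have hpW : p ≤ W := by
    apply le_of_sq_le _ hW0
    rw [hp2, hP]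
    linarith
  have h9 : θ + a' + b' ≤ q := by
    rw [hb']; linarith
  calc (θ + a' + b') ^ 2 ≤ q ^ 2 := by
        apply pow_le_pow_left₀ _ h9
        linarith
    _ = Q := hq2

/-- Abstract pursuit situation: `G γ` is the motion of the Christian answering the Lion path
with lateral curve `γ`. -/
structure Resp (n : ℕ) (G : Curve → ℝ → Raw) : Prop where
  good : ∀ γ t, Good (G γ t)
  lip : ∀ γ s t, dist (G γ s) (G γ t) ≤ |s - t|
  side0 : ∀ γ, (G γ (tp n)).side = true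
  Qb : ∀ γ m t, tp n ≤ t → QQ m (G γ t) ≤ t - tp n
  causal : ∀ γ γ' b, 0 ≤ b → (∀ s, s ≤ b → γ.f s = γ'.f s) →
    ∀ t, 0 ≤ t → t ≤ tp n + b ^ 2 → G γ t = G γ' t
  causal0 : ∀ γ γ' t, 0 ≤ t → t ≤ tp n → G γ t = G γ' t
  avoid : ∀ γ t, 0 ≤ t → t ≤ 2 → dist (G γ t) (lionRaw n γ t) ≠ 0

theorem tp_nonneg (n : ℕ) : 0 ≤ tp n := by
  have := (tp_bounds n).1; linarith

/-- On the Christian side and at a time `tp + b^2` with `b ≤ 1` the level is at most one. -/
theorem Resp.level {n : ℕ} {G : Curve → ℝ → Raw} (h : Resp n G) {γ : Curve} {b : ℝ}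
    (hb0 : 0 ≤ b) (hb1 : b ≤ 1) (hs : (G γ (tp n + b ^ 2)).side = true) :
    (G γ (tp n + b ^ 2)).u ≤ 1 := by
  obtain ⟨h1, h2, -⟩ := h.good γ (tp n + b ^ 2)
  obtain ⟨-, h3⟩ := h2 hs
  rcases h3 with h3 | ⟨m, hm⟩
  · exact h3
  · have h4 := h.Qb γ m (tp n + b ^ 2) (by nlinarith)
    have hmu : mu m (G γ (tp n + b ^ 2)) = (G γ (tp n + b ^ 2)).u := by
      unfold mu; rw [min_eq_left]; linarith
    unfold QQ at h4
    rw [hs, if_pos rfl, hmu, ee_true h1] at h4
    have h5 : (G γ (tp n + b ^ 2)).u ≤ b := by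
      apply le_of_sq_le _ hb0
      linarith
    linarith

/-- Position of the Lion at the end of the prepared curve. -/
theorem lion_at {n : ℕ} {γ : Curve} {b : ℝ} (hb0 : 0 ≤ b) (hb1 : b ≤ 1) :
    dist (lionRaw n γ (tp n + b ^ 2)) ⟨true, γ.f b, b⟩ = 0 := by
  have h := lionRaw_high (n := n) (γ := γ) (t := tp n + b ^ 2) (by nlinarith)
  unfold lionK at h
  rw [add_sub_cancel_left, Real.sqrt_sq hb0, min_eq_right hb1] at h
  exact h

structure St (n : ℕ) (G : Curve → ℝ → Raw) where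
  γ : Curve
  b : ℝ
  b0 : 0 ≤ b
  b1 : b ≤ 1
  const : ∀ s, b ≤ s → γ.f s = γ.f b
  side : (G γ (tp n + b ^ 2)).side = true
  ub : b ≤ (G γ (tp n + b ^ 2)).u
  inv : (dist (γ.f b) (G γ (tp n + b ^ 2)).c + (G γ (tp n + b ^ 2)).u + b) ^ 2 ≤
    2 * ((G γ (tp n + b ^ 2)).u ^ 2 + b ^ 2)

noncomputable def St.P {n : ℕ} {G : Curve → ℝ → Raw} (σ : St n G) : Raw :=
  G σ.γ (tp n + σ.b ^ 2)

/-- The extension of a curve. -/
noncomputable def lam (b b' s : ℝ) : ℝ := max 0 (min ((s - b) / (b' - b)) 1)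

theorem lam_low {b b' s : ℝ} (h : b < b') (hs : s ≤ b) : lam b b' s = 0 := by
  unfold lam
  rw [max_eq_left]
  refine le_trans (min_le_left _ _) ?_
  exact div_nonpos_of_nonpos_of_nonneg (by linarith) (by linarith)

theorem lam_high {b b' s : ℝ} (h : b < b') (hs : b' ≤ s) : lam b b' s = 1 := by
  unfold lam
  have : 1 ≤ (s - b) / (b' - b) := by
    rw [le_div_iff₀ (by linarith)]; linarith
  rw [min_eq_right this, max_eq_right zero_le_one]

theorem lam_mem (b b' s : ℝ) : 0 ≤ lam b b' s ∧ lam b b' s ≤ 1 := by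
  unfold lam
  exact ⟨le_max_left _ _, max_le zero_le_one (min_le_right _ _)⟩

theorem lam_lip {b b' : ℝ} (h : b < b') (s t : ℝ) :
    |lam b b' s - lam b b' t| * (b' - b) ≤ |s - t| := by
  have h0 : 0 < b' - b := by linarith
  have h1 : |lam b b' s - lam b b' t| ≤ |(s - b) / (b' - b) - (t - b) / (b' - b)| := by
    unfold lam
    have e1 := abs_min_sub_min_le_max ((s - b) / (b' - b)) 1 ((t - b) / (b' - b)) 1
    rw [sub_self (1 : ℝ), abs_zero, max_eq_left (abs_nonneg _)] at e1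
    have e2 := abs_max_sub_max_le_abs (min ((s - b) / (b' - b)) 1) (min ((t - b) / (b' - b)) 1) 0
    rw [max_comm _ (0 : ℝ), max_comm _ (0 : ℝ)] at e2
    exact e2.trans e1
  have h2 : (s - b) / (b' - b) - (t - b) / (b' - b) = (s - t) / (b' - b) := by ring
  rw [h2, abs_div, abs_of_pos h0] at h1
  calc |lam b b' s - lam b b' t| * (b' - b) ≤ |s - t| / (b' - b) * (b' - b) :=
        mul_le_mul_of_nonneg_right h1 h0.le
    _ = |s - t| := div_mul_cancel₀ _ h0.ne'

noncomputable def ext (γ : Curve) (b b' : ℝ) (c : E) (hb : b < b') (hc : InC zz c)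
    (hd : dist (γ.f b) c ≤ b' - b) : Curve where
  f s := if s ≤ b then γ.f s else γ.f b + lam b b' s • (c - γ.f b)
  lip := by
    have hn : ‖c - γ.f b‖ ≤ b' - b := by rw [← dist_eq_norm, dist_comm]; exact hd
    have key : ∀ s t, s ≤ t → dist (if s ≤ b then γ.f s else γ.f b + lam b b' s • (c - γ.f b))
        (if t ≤ b then γ.f t else γ.f b + lam b b' t • (c - γ.f b)) ≤ |s - t| := by
      intro s t hst
      have hlam : ∀ s t, dist (γ.f b + lam b b' s • (c - γ.f b))
          (γ.f b + lam b b' t • (c - γ.f b)) ≤ |s - t| := by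
        intro s t
        have e : lam b b' s • (c - γ.f b) - lam b b' t • (c - γ.f b) =
            (lam b b' s - lam b b' t) • (c - γ.f b) := (sub_smul _ _ _).symm
        rw [dist_add_left, dist_eq_norm, e, norm_smul, Real.norm_eq_abs]
        exact le_trans (mul_le_mul_of_nonneg_left hn (abs_nonneg _)) (lam_lip hb s t)
      by_cases h1 : s ≤ b
      · by_cases h2 : t ≤ b
        · rw [if_pos h1, if_pos h2]; exact γ.lip s t
        · push Not at h2
          rw [if_pos h1, if_neg (not_le.mpr h2)]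
          have h3 := hlam b t
          rw [lam_low hb le_rfl, zero_smul, add_zero] at h3
          have h4 := γ.lip s b
          have h5 := dist_triangle (γ.f s) (γ.f b) (γ.f b + lam b b' t • (c - γ.f b))
          rw [abs_of_nonpos (by linarith)] at h3 h4 ⊢
          linarith
      · have h2 : ¬ t ≤ b := fun h => h1 (hst.trans h)
        rw [if_neg h1, if_neg h2]
        exact hlam s t
    intro s t
    rcases le_total s t with h | h
    · exact key s t h
    · rw [dist_comm, abs_sub_comm]; exact key t s h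
  mem := by
    intro s
    split_ifs with h
    · exact γ.mem s
    · exact inC_convex (γ.mem b) hc (lam_mem b b' s).1 (lam_mem b b' s).2

/-- The relation between successive states. -/
structure Rel {n : ℕ} {G : Curve → ℝ → Raw} (σ σ' : St n G) : Prop where
  bb : σ.b ≤ σ'.b
  agree : ∀ s, s ≤ σ.b → σ'.γ.f s = σ.γ.f s
  close : ∀ s, dist (σ'.γ.f s) (σ.γ.f s) ≤ σ'.b - σ.b
  target : σ'.γ.f σ'.b = σ.P.c
  bu : σ'.b ≤ σ.P.u
  gap : (σ.P.u - σ.b) ^ 2 ≤ 4 * (σ'.b - σ.b)

theorem Resp.step {n : ℕ} {G : Curve → ℝ → Raw} (h : Resp n G) (σ : St n G) :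
    ∃ σ' : St n G, Rel σ σ' := by
  obtain ⟨γ, b, b0, b1, hconst, hside, hub, hinv⟩ := σ
  have hu1 := h.level b0 b1 hside
  have hgood := h.good γ (tp n + b ^ 2)
  have htp := tp_nonneg n
  have htp1 := (tp_bounds n).2.1
  have hb2 : b ^ 2 ≤ 1 := by nlinarith
  have havoid := h.avoid γ (tp n + b ^ 2) (by positivity) (by linarith)
  -- strict inequality
  have hlt : b < (G γ (tp n + b ^ 2)).u := by
    rcases eq_or_lt_of_le hub with heq | hlt
    · exfalso
      apply havoid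
      have hd0 : dist (γ.f b) (G γ (tp n + b ^ 2)).c = 0 := by
        rw [← heq] at hinv
        have hd := dist_nonneg (x := γ.f b) (y := (G γ (tp n + b ^ 2)).c)
        nlinarith
      have hc : γ.f b = (G γ (tp n + b ^ 2)).c := dist_eq_zero.mp hd0
      have h1 : G γ (tp n + b ^ 2) = ⟨true, γ.f b, b⟩ := by
        show Raw.mk (G γ (tp n + b ^ 2)).side (G γ (tp n + b ^ 2)).c (G γ (tp n + b ^ 2)).u =
          ⟨true, γ.f b, b⟩
        rw [hside, ← hc, ← heq]
      have h2 := lion_at (n := n) (γ := γ) b0 b1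
      rw [← h1, dist_comm] at h2
      exact h2
    · exact hlt
  set P := G γ (tp n + b ^ 2) with hP
  set a := P.u with ha
  set r := √(2 * (a ^ 2 + b ^ 2)) with hr
  have hr0 : 0 ≤ r := Real.sqrt_nonneg _
  have hr2 : r ^ 2 = 2 * (a ^ 2 + b ^ 2) := Real.sq_sqrt (by positivity)
  have h1 : r < 2 * a := by nlinarith
  have h2 : a + b < r := by nlinarith
  have hbb : b < r - a := by linarith
  have hdist : dist (γ.f b) P.c ≤ (r - a) - b := by
    have h3 : dist (γ.f b) P.c + a + b ≤ r := by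
      apply le_of_sq_le _ hr0
      rw [hr2]; exact hinv
    linarith
  have hPC : InC zz P.c := (hgood.2.1 hside).1
  set γ' := ext γ b (r - a) P.c hbb hPC hdist with hγ'
  have hag : ∀ s, s ≤ b → γ'.f s = γ.f s := by
    intro s hs
    simp only [hγ', ext]
    rw [if_pos hs]
  have hhi : ∀ s, r - a ≤ s → γ'.f s = P.c := by
    intro s hs
    simp only [hγ', ext]
    rw [if_neg (by linarith), lam_high hbb hs, one_smul]
    abel
  have hb'0 : 0 ≤ r - a := by linarith
  have hb'1 : r - a ≤ 1 := by linarith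
  have hcaus : G γ' (tp n + b ^ 2) = P :=
    h.causal γ' γ b b0 hag _ (by positivity) le_rfl
  have hb'sq : b ^ 2 ≤ (r - a) ^ 2 := by nlinarith
  have hDle : dist P (G γ' (tp n + (r - a) ^ 2)) ≤ (r - a) ^ 2 - b ^ 2 := by
    rw [← hcaus]
    refine le_trans (h.lip γ' _ _) ?_
    rw [abs_of_nonpos (by linarith)]; linarith
  have hlt2 : (r - a) ^ 2 - b ^ 2 < a ^ 2 := by nlinarith
  have hside' : (G γ' (tp n + (r - a) ^ 2)).side = true := by
    by_contra hs
    have hne : P.side ≠ (G γ' (tp n + (r - a) ^ 2)).side := by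
      rw [hside]; exact fun h => hs h.symm
    have h3 := dist_diff hne
    rw [hside, ee_true hgood.1] at h3
    have h4 := ee_nonneg (G γ' (tp n + (r - a) ^ 2)).side (G γ' (tp n + (r - a) ^ 2)).u
    linarith
  have hgood' := h.good γ' (tp n + (r - a) ^ 2)
  set P' := G γ' (tp n + (r - a) ^ 2) with hP'
  have hSS := SS_lip P P'
  have hE : a ^ 2 - P'.u ^ 2 ≤ (r - a) ^ 2 - b ^ 2 := by
    unfold SS at hSS
    rw [hside, hside'] at hSS
    simp only [if_true] at hSS
    rw [ee_true hgood.1, ee_true hgood'.1, abs_le] at hSS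
    linarith [hSS.1, hSS.2]
  obtain ⟨hW0, hW2⟩ := lateral_K hside hside' hgood.1 hgood'.1 hDle (by nlinarith [hgood'.1])
  obtain ⟨h5, h6, h7, h8⟩ := pursuit_arith b0 hlt hr0 hr2 rfl hgood'.1 hE
    (dist_nonneg (x := P.c) (y := P'.c)) rfl hW0 hW2
  refine ⟨⟨γ', r - a, hb'0, hb'1, ?_, hside', h7, ?_⟩, ?_⟩
  · intro s hs
    rw [hhi s hs, hhi _ le_rfl]
  · rw [hhi _ le_rfl]; exact h8
  · refine ⟨hbb.le, hag, ?_, hhi _ le_rfl, ?_, ?_⟩
    · intro s
      show dist (γ'.f s) (γ.f s) ≤ (r - a) - b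
      rcases le_total s b with hs | hs
      · rw [hag s hs, dist_self]; linarith
      · rw [hconst s hs]
        simp only [hγ', ext]
        split_ifs with hs2
        · have : s = b := le_antisymm hs2 hs
          rw [this, dist_self]; linarith
        · rw [dist_eq_norm, add_sub_cancel_left, norm_smul, Real.norm_eq_abs,
            abs_of_nonneg (lam_mem b (r - a) s).1]
          rw [dist_comm, dist_eq_norm] at hdist
          calc lam b (r - a) s * ‖P.c - γ.f b‖ ≤ 1 * ‖P.c - γ.f b‖ :=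
                mul_le_mul_of_nonneg_right (lam_mem b (r - a) s).2 (norm_nonneg _)
            _ ≤ (r - a) - b := by rw [one_mul]; exact hdist
    · show r - a ≤ a
      linarith
    · show (a - b) ^ 2 ≤ 4 * ((r - a) - b)
      have h9 : (r - (a + b)) * (r + (a + b)) = (a - b) ^ 2 := by linear_combination hr2
      have h10 : r + (a + b) ≤ 4 := by linarith
      have h11 : 0 ≤ r - (a + b) := by linarith
      have h12 := mul_le_mul_of_nonneg_left h10 h11
      linarith

end Pool.Agent.H32.LC
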