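import Pool.Agent.H32.LC.Base

set_option autoImplicit false

namespace Pool.Agent.H32.LC

/-- Raw points: side `true` is the Christian part, side `false` the Lion part. -/
structure Raw where
  side : Bool
  c : E
  u : ℝ

noncomputable def mm (P Q : Raw) : ℝ := min (min P.u Q.u) ((P.u + Q.u - dist P.c Q.c) / 2)

noncomputable def DD (P Q : Raw) : ℝ :=
  if P.side = Q.side then ee P.side P.u + ee P.side Q.u - 2 * ee P.side (mm P Q)
  else ee P.side P.u + ee Q.side Q.u

theorem mm_self (P : Raw) : mm P P = P.u := by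
  unfold mm; rw [dist_self, min_self, min_eq_left]; linarith

theorem mm_comm (P Q : Raw) : mm P Q = mm Q P := by
  unfold mm; rw [dist_comm, min_comm P.u, add_comm P.u]

theorem mm_left (P Q : Raw) : mm P Q ≤ P.u := le_trans (min_le_left _ _) (min_le_left _ _)
theorem mm_right (P Q : Raw) : mm P Q ≤ Q.u := le_trans (min_le_left _ _) (min_le_right _ _)
theorem mm_dist (P Q : Raw) : 2 * mm P Q ≤ P.u + Q.u - dist P.c Q.c := by
  have : mm P Q ≤ (P.u + Q.u - dist P.c Q.c) / 2 := min_le_right _ _
  linarith

theorem mm_tri (P Q R : Raw) : mm P Q + mm Q R - Q.u ≤ mm P R := by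
  have h1 := mm_left P Q
  have h2 := mm_right P Q
  have h3 := mm_dist P Q
  have h4 := mm_left Q R
  have h5 := mm_right Q R
  have h6 := mm_dist Q R
  have h7 := dist_triangle P.c Q.c R.c
  unfold mm at *
  refine le_min (le_min ?_ ?_) ?_ <;> linarith

theorem DD_self (P : Raw) : DD P P = 0 := by
  unfold DD; rw [if_pos rfl, mm_self]; ring

theorem DD_comm (P Q : Raw) : DD P Q = DD Q P := by
  unfold DD
  by_cases h : P.side = Q.side
  · rw [if_pos h, if_pos h.symm, mm_comm, h]; ring
  · rw [if_neg h, if_neg (Ne.symm h)]; ring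

theorem DD_tri (P Q R : Raw) : DD P R ≤ DD P Q + DD Q R := by
  unfold DD
  by_cases h1 : P.side = Q.side
  · by_cases h2 : Q.side = R.side
    · rw [if_pos h1, if_pos h2, if_pos (h1.trans h2), h1]
      have h3 := ee_conv Q.side (mm_right P Q) (mm_left Q R)
      have h4 := ee_mono Q.side (mm_tri P Q R)
      linarith
    · have h3 : P.side ≠ R.side := fun h => h2 (h1.symm.trans h)
      rw [if_pos h1, if_neg h2, if_neg h3, h1]
      have h4 := ee_mono Q.side (mm_right P Q)
      linarith
  · by_cases h2 : Q.side = R.side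
    · have h3 : P.side ≠ R.side := fun h => h1 (h.trans h2.symm)
      rw [if_neg h1, if_pos h2, if_neg h3, h2]
      have h4 := ee_mono R.side (mm_left Q R)
      linarith
    · have h3 : P.side = R.side := by
        cases hP : P.side <;> cases hQ : Q.side <;> cases hR : R.side <;> simp_all
      rw [if_neg h1, if_neg h2, if_pos h3, h3]
      have h4 := ee_nonneg R.side (mm P R)
      have h5 := ee_nonneg Q.side Q.u
      linarith

noncomputable instance : PseudoMetricSpace Raw where
  dist := DD
  dist_self := DD_self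
  dist_comm := DD_comm
  dist_triangle := DD_tri

theorem dist_eq_DD (P Q : Raw) : dist P Q = DD P Q := rfl

theorem zz_nonneg (k : ℕ) : 0 ≤ zz k := (zz_pos k).le
theorem vv_nonneg (k : ℕ) : 0 ≤ vv k := (vv_pos k).le

/-- Constraint defining the points of the arena. -/
def Good (P : Raw) : Prop :=
  0 ≤ P.u ∧
  (P.side = true → InC zz P.c ∧ (P.u ≤ 1 ∨ ∃ m, P.u ≤ P.c m - gg m)) ∧
  (P.side = false → InC vv P.c ∧
    ((∃ n, 1 / 2 + tau n ≤ P.u + P.c n) ∨ 1 / 2 ≤ P.u + (7 / 8) * ‖P.c‖))

def Pt : Type := {P : Raw // Good P}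

noncomputable instance : PseudoMetricSpace Pt := inferInstanceAs (PseudoMetricSpace {P : Raw // Good P})

theorem Pt.dist_eq (P Q : Pt) : dist P Q = dist P.1 Q.1 := rfl

/-- The arena. -/
noncomputable def Arena : Type := SeparationQuotient Pt

noncomputable instance : MetricSpace Arena := inferInstanceAs (MetricSpace (SeparationQuotient Pt))

noncomputable def mkA (P : Pt) : Arena := SeparationQuotient.mk P

noncomputable def rep (x : Arena) : Pt := Function.surjInv (SeparationQuotient.surjective_mk (X := Pt)) x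

theorem mk_rep (x : Arena) : mkA (rep x) = x :=
  Function.surjInv_eq (SeparationQuotient.surjective_mk (X := Pt)) x

theorem dist_mk (P Q : Pt) : dist (mkA P) (mkA Q) = dist P Q := SeparationQuotient.dist_mk P Q

theorem mk_eq_iff (P Q : Pt) : mkA P = mkA Q ↔ dist P Q = 0 := by
  rw [← dist_mk, dist_eq_zero]

theorem dist_rep (x y : Arena) : dist (rep x) (rep y) = dist x y := by
  rw [← dist_mk, mk_rep, mk_rep]

theorem rep_mk (P : Pt) : dist (rep (mkA P)) P = 0 := by
  rw [← dist_mk, mk_rep, dist_self]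

/-! Basic metric facts -/

theorem ee_true {x : ℝ} (h : 0 ≤ x) : ee true x = x ^ 2 := by
  unfold ee; simp [max_eq_left h]

theorem ee_false {x : ℝ} (h : 0 ≤ x) : ee false x = x := by
  unfold ee; simp [max_eq_left h]

theorem dist_diff {P Q : Raw} (h : P.side ≠ Q.side) :
    dist P Q = ee P.side P.u + ee Q.side Q.u := by
  rw [dist_eq_DD]; unfold DD; rw [if_neg h]

theorem dist_same {P Q : Raw} (h : P.side = Q.side) :
    dist P Q = ee P.side P.u + ee P.side Q.u - 2 * ee P.side (mm P Q) := by
  rw [dist_eq_DD]; unfold DD; rw [if_pos h]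

/-- The height function. -/
noncomputable def SS (P : Raw) : ℝ := if P.side then - ee true P.u else ee false P.u

theorem SS_lip (P Q : Raw) : |SS P - SS Q| ≤ dist P Q := by
  unfold SS
  by_cases h : P.side = Q.side
  · rw [dist_same h]
    have h1 := ee_mono P.side (mm_left P Q)
    have h2 := ee_mono P.side (mm_right P Q)
    rw [abs_le]
    cases hP : P.side
    · rw [hP] at h h1 h2
      rw [← h]
      simp only [Bool.false_eq_true, if_false]
      constructor <;> linarith
    · rw [hP] at h h1 h2
      rw [← h]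
      simp only [if_true]
      constructor <;> linarith
  · rw [dist_diff h]
    have h1 := ee_nonneg P.side P.u
    have h2 := ee_nonneg Q.side Q.u
    cases hP : P.side <;> cases hQ : Q.side
    · exact absurd (hP.trans hQ.symm) h
    · simp only [Bool.false_eq_true, if_false, if_true]
      rw [hP] at h1; rw [hQ] at h2
      rw [abs_le]; constructor <;> linarith
    · simp only [Bool.false_eq_true, if_false, if_true]
      rw [hP] at h1; rw [hQ] at h2
      rw [abs_le]; constructor <;> linarith
    · exact absurd (hP.trans hQ.symm) h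

noncomputable def mu (m : ℕ) (P : Raw) : ℝ := min P.u ((P.u + P.c m - gg m) / 2)

/-- Busemann type functions. -/
noncomputable def QQ (m : ℕ) (P : Raw) : ℝ :=
  if P.side then 2 * ee true (mu m P) - ee true P.u else - ee false P.u

theorem QQ_lip_aux (m : ℕ) (P Q : Raw) : QQ m P - QQ m Q ≤ dist P Q := by
  unfold QQ
  by_cases h : P.side = Q.side
  · rw [dist_same h]
    cases hP : P.side
    · rw [hP] at h
      rw [← h]
      simp only [Bool.false_eq_true, if_false]
      have h1 := ee_mono false (mm_left P Q)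
      have h2 := ee_mono false (mm_right P Q)
      linarith
    · rw [hP] at h
      rw [← h]
      simp only [if_true]
      have h1 : mu m P ≤ P.u := min_le_left _ _
      have h2 := ee_conv true h1 (mm_left P Q)
      have h3 : mu m P + mm P Q - P.u ≤ mu m Q := by
        have h4 : mu m P ≤ (P.u + P.c m - gg m) / 2 := min_le_right _ _
        have h5 := mm_right P Q
        have h6 := mm_dist P Q
        have h7 := coord_le P.c Q.c m
        refine le_min ?_ ?_ <;> linarith
      have h4 := ee_mono true h3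
      linarith
  · rw [dist_diff h]
    have h1 := ee_nonneg P.side P.u
    have h2 := ee_nonneg Q.side Q.u
    cases hP : P.side <;> cases hQ : Q.side
    · exact absurd (hP.trans hQ.symm) h
    · simp only [Bool.false_eq_true, if_false, if_true]
      rw [hP] at h1; rw [hQ] at h2
      have h3 := ee_nonneg true (mu m Q)
      linarith
    · simp only [Bool.false_eq_true, if_false, if_true]
      have h3 := ee_mono true (show mu m P ≤ P.u from min_le_left _ _)
      linarith
    · exact absurd (hP.trans hQ.symm) h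

theorem QQ_lip (m : ℕ) (P Q : Raw) : |QQ m P - QQ m Q| ≤ dist P Q := by
  rw [abs_le]
  have h1 := QQ_lip_aux m P Q
  have h2 := QQ_lip_aux m Q P
  rw [dist_comm] at h2
  constructor <;> linarith

/-- Lateral bound on the Christian side. -/
theorem lateral_K {P Q : Raw} (hP : P.side = true) (hQ : Q.side = true) (hP0 : 0 ≤ P.u)
    (hQ0 : 0 ≤ Q.u) {A : ℝ} (hA : dist P Q ≤ A) (hN : 0 < P.u ^ 2 + Q.u ^ 2 - A) :
    0 ≤ P.u + Q.u - dist P.c Q.c ∧
      2 * (P.u ^ 2 + Q.u ^ 2 - A) ≤ (P.u + Q.u - dist P.c Q.c) ^ 2 := by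
  rw [dist_same (hP.trans hQ.symm), hP, ee_true hP0, ee_true hQ0] at hA
  have h1 : 0 < ee true (mm P Q) := by linarith
  have h2 : 0 < mm P Q := by
    by_contra hc
    push Not at hc
    unfold ee at h1
    simp [max_eq_right hc] at h1
  rw [ee_true h2.le] at hA
  have h3 := mm_dist P Q
  constructor
  · linarith
  · nlinarith

/-- Lateral bound on the Lion side. -/
theorem lateral_L {P Q : Raw} (hP : P.side = false) (hQ : Q.side = false) (hP0 : 0 ≤ P.u)
    (hQ0 : 0 ≤ Q.u) {A : ℝ} (hA : dist P Q ≤ A) (hN : 0 < P.u + Q.u - A) :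
    dist P.c Q.c ≤ A := by
  rw [dist_same (hP.trans hQ.symm), hP, ee_false hP0, ee_false hQ0] at hA
  have h1 : 0 < ee false (mm P Q) := by linarith
  have h2 : 0 < mm P Q := by
    by_contra hc
    push Not at hc
    unfold ee at h1
    simp [max_eq_right hc] at h1
  rw [ee_false h2.le] at hA
  have h3 := mm_dist P Q
  linarith

/-- Upper bound on the Christian side when the lateral distance is at most the vertical one. -/
theorem dist_K {P Q : Raw} (hP : P.side = true) (hQ : Q.side = true) (hP0 : 0 ≤ P.u)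
    (hQ0 : 0 ≤ Q.u) (hd : dist P.c Q.c ≤ |P.u - Q.u|) : dist P Q = |P.u ^ 2 - Q.u ^ 2| := by
  rw [dist_same (hP.trans hQ.symm), hP, ee_true hP0, ee_true hQ0]
  rcases le_total P.u Q.u with h | h
  · rw [abs_of_nonpos (by linarith)] at hd
    have h1 : mm P Q = P.u := by
      unfold mm; rw [min_eq_left h, min_eq_left]; linarith
    rw [h1, ee_true hP0, abs_of_nonpos (by nlinarith)]; ring
  · rw [abs_of_nonneg (by linarith)] at hd
    have h1 : mm P Q = Q.u := by
      unfold mm; rw [min_eq_right h, min_eq_left]; linarith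
    rw [h1, ee_true hQ0, abs_of_nonneg (by nlinarith)]; ring

/-- Upper bound on the Lion side. -/
theorem dist_L {P Q : Raw} (hP : P.side = false) (hQ : Q.side = false) (hP0 : 0 ≤ P.u)
    (hQ0 : 0 ≤ Q.u) {A : ℝ} (hd : dist P.c Q.c ≤ A) (hu : |P.u - Q.u| ≤ A) :
    dist P Q ≤ A := by
  rw [dist_same (hP.trans hQ.symm), hP, ee_false hP0, ee_false hQ0]
  have h0 : mm P Q ≤ ee false (mm P Q) := by unfold ee; simp
  rw [abs_le] at hu
  have h1 : (P.u + Q.u - A) / 2 ≤ mm P Q := by
    unfold mm
    refine le_min (le_min ?_ ?_) ?_ <;> linarith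
  linarith

theorem dist_K' {c c' : E} {u u' : ℝ} (hu : 0 ≤ u) (hu' : 0 ≤ u') (hd : dist c c' ≤ |u - u'|) :
    dist (⟨true, c, u⟩ : Raw) ⟨true, c', u'⟩ = |u ^ 2 - u' ^ 2| :=
  dist_K (P := ⟨true, c, u⟩) (Q := ⟨true, c', u'⟩) rfl rfl hu hu' hd

theorem dist_L' {c c' : E} {u u' : ℝ} (hu : 0 ≤ u) (hu' : 0 ≤ u') {A : ℝ} (hd : dist c c' ≤ A)
    (hA : |u - u'| ≤ A) : dist (⟨false, c, u⟩ : Raw) ⟨false, c', u'⟩ ≤ A :=
  dist_L (P := ⟨false, c, u⟩) (Q := ⟨false, c', u'⟩) rfl rfl hu hu' hd hA

end Pool.Agent.H32.LC
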